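import Pool.Agent.SerreM.MDefs

/-!
# MGENPOS: base points in general position for a countable family of half turns
-/

namespace SerreM

open SerreK SerreK.GP

/-! ### preparations -/

theorem poly2_comp {q : V → ℝ} (hq : Poly2 q) (L : V →ₗ[ℝ] V) : Poly2 fun v => q (L v) := by
  refine ⟨hq.cont.comp L.continuous_of_finiteDimensional, fun y v => ?_⟩
  obtain ⟨A, B, C, h⟩ := hq.line (L y) (L v)
  exact ⟨A, B, C, fun t => by rw [map_add, map_smul, h]⟩

/-- `x v 0 - y v 1`, as a linear form -/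
def mgLin (x y : ℝ) (L : V →ₗ[ℝ] V) : V →ₗ[ℝ] ℝ where
  toFun v := L v 0 * x - L v 1 * y
  map_add' v w := by rw [map_add]; simp only [Pi.add_apply]; ring
  map_smul' c v := by rw [map_smul]; simp only [Pi.smul_apply, smul_eq_mul, RingHom.id_apply]; ring

theorem mg_exists_free {Γ : Type} [Group Γ] (ρ : Γ →* (V →ₗ[ℝ] V)) [Countable Γ] {W : Set V}
    (hW : W.Countable) {ι : Type} [Countable ι] (q : ι → V → ℝ) (hq : ∀ i, Poly2 (q i))
    (hne : ∀ i, ∃ v, q i v ≠ 0) :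
    ∃ v, InC v ∧ (∀ g, Free W (ρ g v)) ∧ ∀ i, q i v ≠ 0 := by
  have : Countable W := hW.to_subtype
  have hphi : ∀ s : {s : Finset W // s.card ≤ 3}, ∃ f : V →ₗ[ℝ] ℝ, f ≠ 0 ∧
      Submodule.span ℝ (Subtype.val '' (s.1 : Set W)) ≤ LinearMap.ker f := by
    intro s
    apply Submodule.exists_le_ker_of_lt_top
    rw [lt_top_iff_ne_top]
    intro htop
    have h1 : Module.finrank ℝ (Submodule.span ℝ (Subtype.val '' (s.1 : Set W))) ≤ 3 := by
      classical
      have h2 : (Subtype.val '' (s.1 : Set W)) = ((s.1.image Subtype.val : Finset V) : Set V) := by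
        rw [Finset.coe_image]
      rw [h2]
      exact (finrank_span_finset_le_card _).trans (Finset.card_image_le.trans s.2)
    rw [htop, finrank_top] at h1
    have : Module.finrank ℝ V = 4 := by
      rw [Module.finrank_fin_fun]
    omega
  choose φ hφ0 hφ using hphi
  obtain ⟨v, hv, hall⟩ := exists_generic (ι := (Γ × {s : Finset W // s.card ≤ 3}) ⊕ ι)
    (fun i v => Sum.elim (fun j : Γ × {s : Finset W // s.card ≤ 3} => φ j.2 (ρ j.1 v))
      (fun j => q j v) i)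
    (by
      rintro (j | j)
      · exact poly2_linear ((φ j.2).comp (ρ j.1))
      · exact hq j)
    (by
      rintro (j | j)
      · obtain ⟨u, hu⟩ : ∃ u, φ j.2 u ≠ 0 := by
          by_contra hcon
          push Not at hcon
          exact hφ0 j.2 (LinearMap.ext hcon)
        refine ⟨ρ j.1⁻¹ u, ?_⟩
        simp only [Sum.elim_inl]
        rw [GP.rho_inv]; exact hu
      · exact hne j)
  refine ⟨v, hv, fun g s hs hmem => hall (Sum.inl (g, ⟨s, hs⟩)) ?_, fun i => hall (Sum.inr i)⟩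
  exact hφ ⟨s, hs⟩ hmem

theorem mg_GF2 {a b : V} (h : ∀ x y : ℝ, x • a + y • b = 0 → x = 0 ∧ y = 0) : GF ![a, b] := by
  intro x hx _
  rw [Fin.sum_univ_two] at hx
  obtain ⟨h0, h1⟩ := h (x 0) (x 1) (by simpa using hx)
  ext i
  fin_cases i
  · exact h0
  · exact h1

theorem mg_GF3 {a b c : V} (h : ∀ x y z : ℝ, x • a + y • b + z • c = 0 → x = 0 ∧ y = 0 ∧ z = 0) :
    GF ![a, b, c] := by
  intro x hx _
  rw [Fin.sum_univ_three] at hx
  obtain ⟨h0, h1, h2⟩ := h (x 0) (x 1) (x 2) (by simpa using hx)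
  ext i
  fin_cases i
  · exact h0
  · exact h1
  · exact h2

theorem mg_LI4 {a b c d : V} (h : GF ![a, b, c, d]) : LI4 a b c d := by
  intro x y z t hr
  have h1 := h ![x, y, z, t] (by rw [Fin.sum_univ_four]; simpa using hr)
    ((Finset.card_le_univ _).trans (by simp))
  exact ⟨congrFun h1 0, congrFun h1 1, congrFun h1 2, congrFun h1 3⟩

theorem mg_LI4_of {L : V ≃ₗ[ℝ] V} {a b c d : V} (h : LI4 (L a) (L b) (L c) (L d)) :
    LI4 a b c d := by
  intro x y z t hr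
  apply h
  rw [← map_smul, ← map_smul, ← map_smul, ← map_smul, ← map_add, ← map_add, ← map_add, hr,
    map_zero]

theorem genposM {Γ : Type} [Group Γ] [Countable Γ] (ρ : Γ →* (V →ₗ[ℝ] V))
    (hC : ∀ g v, InC v → InC (ρ g v)) {I : Type} [Countable I] (J : I → Γ) (L : I → V ≃ₗ[ℝ] V)
    (hL : ∀ i, Diag ρ (J i) (L i)) :
    ∃ (o : I → V) (x1 x2 x3 y1 y2 y3 : V),
      ((∀ i, InC (o i)) ∧ InC x1 ∧ InC x2 ∧ InC x3 ∧ InC y1 ∧ InC y2 ∧ InC y3) ∧
      (∀ i, ρ (J i) (o i) = o i) ∧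
      (∀ a b c d e, Gen6 (ρ a x3) (ρ b x1) (ρ c x2) y3 (ρ d y1) (ρ e y2)) ∧
      (∀ i a b c d e, Gen6 (ρ a x3) (ρ b x1) (ρ c x2) (o i) (ρ d y1) (ρ e y2)) ∧
      (∀ i a b c d, Gen6 (ρ a x3) (ρ b x1) (ρ c x2) (ρ d (o i)) y2 (ρ (J i) y2)) ∧
      (∀ j a d e, Gen6 (ρ a x1) (ρ a x2) (ρ a (ρ (J j) x2)) y3 (ρ d y1) (ρ e y2)) ∧
      (∀ i j a d e, Gen6 (ρ a x1) (ρ a x2) (ρ a (ρ (J j) x2)) (o i) (ρ d y1) (ρ e y2)) ∧
      (∀ i j a d, Gen6 (ρ a x1) (ρ a x2) (ρ a (ρ (J j) x2)) (ρ d (o i)) y2 (ρ (J i) y2)) := by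
  set o : I → V := fun i => (L i).symm oo with ho
  have hoL : ∀ i, L i (o i) = oo := fun i => (L i).apply_symm_apply oo
  have hoC : ∀ i, InC (o i) := fun i => ((hL i).cone _).1 (by rw [hoL]; exact InC_oo)
  have hJo : ∀ i, ρ (J i) (o i) = o i := by
    intro i
    apply (L i).injective
    rw [(hL i).diag, hoL]
    ext k
    fin_cases k <;> simp [oo]
  have hJJ : ∀ i v, L i (ρ (J i) v) = JJ (L i v) := fun i v => (hL i).diag v
  have hLC : ∀ i v, InC v → InC (L i v) := fun i v hv => ((hL i).cone v).2 hv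
  have hoD : ∀ g i, InC (ρ g (o i)) := fun g i => hC g _ (hoC i)
  have hpos1 : ∀ v : V, InC v → v 1 ≠ 0 := by
    intro v hv h4
    have h2 := hv.2
    rw [h4, mul_zero] at h2
    nlinarith [sq_nonneg (v 2), sq_nonneg (v 3)]
  -- the point `x2`
  obtain ⟨x2, hx2, hgen⟩ := exists_generic (ι := (I × Γ) ⊕ (I × I × Γ))
    (fun k v => Sum.elim (fun t : I × Γ => (L t.1 (ρ t.2 v)) 2)
      (fun t : I × I × Γ => L t.1 v 0 * (L t.1 (ρ t.2.2 (o t.2.1))) 1 -
        L t.1 v 1 * (L t.1 (ρ t.2.2 (o t.2.1))) 0) k)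
    (by
      rintro (t | t)
      · exact poly2_linear ((LinearMap.proj 2).comp ((L t.1).toLinearMap.comp (ρ t.2)))
      · exact poly2_linear (mgLin _ _ (L t.1).toLinearMap))
    (by
      rintro (t | t)
      · refine ⟨ρ t.2⁻¹ ((L t.1).symm ![0, 0, 1, 0]), ?_⟩
        simp only [Sum.elim_inl]
        rw [GP.rho_inv, LinearEquiv.apply_symm_apply]
        simp
      · refine ⟨(L t.1).symm ![1, 0, 0, 0], ?_⟩
        simp only [Sum.elim_inr]
        rw [LinearEquiv.apply_symm_apply]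
        have h3 := hpos1 _ (hLC t.1 _ (hoD t.2.2 t.2.1))
        simpa using h3)
  have g1 : ∀ i g, (L i (ρ g x2)) 2 ≠ 0 := fun i g => hgen (Sum.inl (i, g))
  have g2 : ∀ j i g, L j x2 0 * (L j (ρ g (o i))) 1 - L j x2 1 * (L j (ρ g (o i))) 0 ≠ 0 :=
    fun j i g => hgen (Sum.inr (j, i, g))
  have hx2D : ∀ g, InC (ρ g x2) := fun g => hC g x2 hx2
  -- three independent vectors
  have li3 : ∀ j i g, ∀ x y z : ℝ, x • x2 + y • ρ (J j) x2 + z • ρ g (o i) = 0 →
      x = 0 ∧ y = 0 ∧ z = 0 := by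
    intro j i g x y z h
    have h1 := congrArg (L j) h
    rw [map_add, map_add, map_smul, map_smul, map_smul, map_zero, hJJ] at h1
    have e0 : x * L j x2 0 + y * L j x2 0 + z * L j (ρ g (o i)) 0 = 0 := by
      have := congrFun h1 0
      simpa [JJ, Matrix.vecHead, Matrix.vecTail] using this
    have e1 : x * L j x2 1 + y * L j x2 1 + z * L j (ρ g (o i)) 1 = 0 := by
      have := congrFun h1 1
      simpa [JJ, Matrix.vecHead, Matrix.vecTail] using this
    have e2 : x * L j x2 2 - y * L j x2 2 + z * L j (ρ g (o i)) 2 = 0 := by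
      have := congrFun h1 2
      simp only [JJ, Pi.add_apply, Pi.smul_apply, smul_eq_mul, Pi.zero_apply] at this
      simpa [Matrix.vecHead, Matrix.vecTail, sub_eq_add_neg] using this
    have hz : z * (L j x2 0 * (L j (ρ g (o i))) 1 - L j x2 1 * (L j (ρ g (o i))) 0) = 0 := by
      linear_combination (L j x2 0) * e1 - (L j x2 1) * e0
    have hz0 : z = 0 := (mul_eq_zero.1 hz).resolve_right (g2 j i g)
    subst hz0
    have h00 : L j x2 0 ≠ 0 := (hLC j _ hx2).1.ne'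
    have h22 : L j x2 2 ≠ 0 := by
      have := g1 j 1
      rwa [GP.rho_one] at this
    have s1 : x + y = 0 := by
      have : (x + y) * L j x2 0 = 0 := by linarith
      exact (mul_eq_zero.1 this).resolve_right h00
    have s2 : x - y = 0 := by
      have : (x - y) * L j x2 2 = 0 := by linarith
      exact (mul_eq_zero.1 this).resolve_right h22
    exact ⟨by linarith, by linarith, rfl⟩
  have li2o : ∀ i c d, ∀ x y : ℝ, x • ρ c x2 + y • ρ d (o i) = 0 → x = 0 ∧ y = 0 := by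
    intro i c d x y h
    have h1 := congrArg (ρ c⁻¹) h
    rw [map_add, map_smul, map_smul, map_zero, GP.rho_inv', ← GP.rho_mul] at h1
    have h2 := li3 i i (c⁻¹ * d) x 0 y (by rw [zero_smul, add_zero]; exact h1)
    exact ⟨h2.1, h2.2.2⟩
  have li2J : ∀ j a, ∀ x y : ℝ, x • ρ a x2 + y • ρ a (ρ (J j) x2) = 0 → x = 0 ∧ y = 0 := by
    intro j a x y h
    have h1 := congrArg (ρ a⁻¹) h
    rw [map_add, map_smul, map_smul, map_zero, GP.rho_inv', GP.rho_inv'] at h1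
    have h2 := li3 j j 1 x y 0 (by rw [zero_smul, add_zero]; exact h1)
    exact ⟨h2.1, h2.2.1⟩
  have li3a : ∀ j i a d, ∀ x y z : ℝ, x • ρ a x2 + y • ρ a (ρ (J j) x2) + z • ρ d (o i) = 0 →
      x = 0 ∧ y = 0 ∧ z = 0 := by
    intro j i a d x y z h
    have h1 := congrArg (ρ a⁻¹) h
    rw [map_add, map_add, map_smul, map_smul, map_smul, map_zero, GP.rho_inv', GP.rho_inv',
      ← GP.rho_mul] at h1
    exact li3 j i (a⁻¹ * d) x y z h1
  -- the point `y2`
  let Orb : V → Set V := fun w => Set.range fun g => ρ g w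
  have hOrb : ∀ w, (Orb w).Countable := fun w => Set.countable_range _
  set Wa : Set V := (⋃ i, Orb (o i)) ∪ Orb x2 with hWa
  have cWa : Wa.Countable := (Set.countable_iUnion fun i => hOrb (o i)).union (hOrb x2)
  obtain ⟨y2, hy2, fy2, hgen2⟩ := mg_exists_free ρ cWa (ι := (I × Γ × Γ) ⊕ (I × I × Γ))
    (fun k v => Sum.elim
      (fun t : I × Γ × Γ => QQ (L t.1 (ρ t.2.1 x2)) (L t.1 (ρ t.2.2 (o t.1))) (L t.1 v))
      (fun t : I × I × Γ => QQ (L t.1 (ρ t.2.2 x2)) (L t.1 (ρ t.2.2 (ρ (J t.2.1) x2)))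
        (L t.1 v)) k)
    (by
      rintro (t | t)
      · exact poly2_comp (poly2_QQ _ _) (L t.1).toLinearMap
      · exact poly2_comp (poly2_QQ _ _) (L t.1).toLinearMap)
    (by
      rintro (⟨i, c, d⟩ | ⟨i, j, a⟩)
      · obtain ⟨y, hy⟩ := exists_QQ (hLC i _ (hx2D c)) (hLC i _ (hoD d i)) (g1 i c) (by
          intro l hl
          rw [← map_smul] at hl
          have h1 := (L i).injective hl
          have h2 := li2o i c d l (-1) (by rw [h1, neg_one_smul]; abel)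
          exact absurd h2.2 (by norm_num))
        refine ⟨(L i).symm y, ?_⟩
        simp only [Sum.elim_inl]
        rw [LinearEquiv.apply_symm_apply]
        exact hy
      · obtain ⟨y, hy⟩ := exists_QQ (hLC i _ (hx2D a)) (hLC i _ (hC a _ (hC (J j) _ hx2)))
          (g1 i a) (by
          intro l hl
          rw [← map_smul] at hl
          have h1 := (L i).injective hl
          have h2 := li2J j a l (-1) (by rw [h1, neg_one_smul]; abel)
          exact absurd h2.2 (by norm_num))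
        refine ⟨(L i).symm y, ?_⟩
        simp only [Sum.elim_inr]
        rw [LinearEquiv.apply_symm_apply]
        exact hy)
  have A : ∀ i c d, LI4 (ρ c x2) (ρ d (o i)) y2 (ρ (J i) y2) := by
    intro i c d
    have h := li_of_QQ (hgen2 (Sum.inl (i, c, d)))
    rw [← hJJ] at h
    exact mg_LI4_of h
  have B : ∀ i j a, LI4 (ρ a x2) (ρ a (ρ (J j) x2)) y2 (ρ (J i) y2) := by
    intro i j a
    have h := li_of_QQ (hgen2 (Sum.inr (i, j, a)))
    rw [← hJJ] at h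
    exact mg_LI4_of h
  -- membership
  have ma_o : ∀ g i, ρ g (o i) ∈ Wa := fun g i => Or.inl (Set.mem_iUnion.2 ⟨i, g, rfl⟩)
  have ma_o' : ∀ i, o i ∈ Wa := fun i => by
    have := ma_o 1 i
    rwa [GP.rho_one] at this
  have ma_x2 : ∀ g, ρ g x2 ∈ Wa := fun g => Or.inr ⟨g, rfl⟩
  have ma_x2J : ∀ g j, ρ g (ρ (J j) x2) ∈ Wa := fun g j => by rw [← GP.rho_mul]; exact ma_x2 _
  have ec : ∀ {n : ℕ} {f : Fin n → V} {v : V} {W : Set V}, v ∈ W → (∀ i, f i ∈ W) →
      ∀ i, (Matrix.vecCons v f) i ∈ W := by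
    intro n f v W hv hf i
    refine Fin.cases ?_ (fun j => ?_) i
    · simpa using hv
    · simpa using hf j
  have e0 : ∀ {W : Set V}, ∀ i, (![] : Fin 0 → V) i ∈ W := fun i => i.elim0
  have Cc : ∀ i j a d e, GF ![ρ e y2, ρ a x2, ρ a (ρ (J j) x2), ρ d (o i)] := by
    intro i j a d e
    exact (mg_GF3 (li3a j i a d)).cons
      (ec (ma_x2 a) (ec (ma_x2J a j) (ec (ma_o d i) (e0 (W := Wa))))) (fy2 e)
  have Cl : ∀ i j a d e, LI4 (ρ a x2) (ρ a (ρ (J j) x2)) (ρ d (o i)) (ρ e y2) := by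
    intro i j a d e x y z t hr
    obtain ⟨h1, h2, h3, h4⟩ := mg_LI4 (Cc i j a d e) t x y z (by rw [← hr]; abel)
    exact ⟨h2, h3, h4, h1⟩
  -- free letters
  set W0 : Set V := Wa ∪ Orb y2 with hW0
  have cW0 : W0.Countable := cWa.union (hOrb y2)
  obtain ⟨x1, hx1, fx1⟩ := exists_free ρ cW0
  set W1 : Set V := W0 ∪ Orb x1 with hW1
  have cW1 : W1.Countable := cW0.union (hOrb x1)
  obtain ⟨x3, hx3, fx3⟩ := exists_free ρ cW1
  set W2 : Set V := W1 ∪ Orb x3 with hW2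
  have cW2 : W2.Countable := cW1.union (hOrb x3)
  obtain ⟨y1, hy1, fy1⟩ := exists_free ρ cW2
  set W3 : Set V := W2 ∪ Orb y1 with hW3
  have cW3 : W3.Countable := cW2.union (hOrb y1)
  obtain ⟨y3, hy3, fy3⟩ := exists_free ρ cW3
  have fy3' : Free W3 y3 := by
    have := fy3 1
    rwa [GP.rho_one] at this
  have ia0 : Wa ⊆ W0 := Set.subset_union_left
  have m_y2 : ∀ g, ρ g y2 ∈ W0 := fun g => Or.inr ⟨g, rfl⟩
  have m_y2' : y2 ∈ W0 := by
    have := m_y2 1
    rwa [GP.rho_one] at this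
  have m_x1 : ∀ g, ρ g x1 ∈ W1 := fun g => Or.inr ⟨g, rfl⟩
  have m_x3 : ∀ g, ρ g x3 ∈ W2 := fun g => Or.inr ⟨g, rfl⟩
  have m_y1 : ∀ g, ρ g y1 ∈ W3 := fun g => Or.inr ⟨g, rfl⟩
  have i01 : W0 ⊆ W1 := Set.subset_union_left
  have i12 : W1 ⊆ W2 := Set.subset_union_left
  have i23 : W2 ⊆ W3 := Set.subset_union_left
  have GF1 : ∀ c, GF ![ρ c x2] := by
    intro c x hx _
    rw [Fin.sum_univ_one] at hx
    ext i
    fin_cases i
    have h1 : x 0 • ρ c x2 = 0 := by simpa using hx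
    have h2 : ρ c x2 ≠ 0 := by
      intro h3
      have h4 := (hx2D c).1
      rw [h3] at h4
      exact absurd h4 (by simp)
    exact (smul_eq_zero.1 h1).resolve_right h2
  let σ1 : Equiv.Perm (Fin 6) := ⟨![2, 3, 5, 0, 1, 4], ![3, 4, 0, 1, 5, 2], by decide, by decide⟩
  let σ2 : Equiv.Perm (Fin 6) := ⟨![1, 2, 4, 5, 0, 3], ![4, 0, 1, 5, 2, 3], by decide, by decide⟩
  let σ4 : Equiv.Perm (Fin 6) := ⟨![2, 4, 5, 0, 1, 3], ![3, 4, 0, 5, 1, 2], by decide, by decide⟩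
  let σ5 : Equiv.Perm (Fin 6) := ⟨![1, 3, 4, 5, 0, 2], ![4, 0, 5, 1, 2, 3], by decide, by decide⟩
  refine ⟨o, x1, x2, x3, y1, y2, y3, ⟨hoC, hx1, hx2, hx3, hy1, hy2, hy3⟩, hJo, ?_, ?_, ?_, ?_, ?_,
    ?_⟩
  · intro a b c d e
    have wa := ec (ma_x2 c) (e0 (W := Wa))
    have h0 := (GF1 c).cons wa (fy2 e)
    have w0 := ec (m_y2 e) (fun i => ia0 (wa i))
    have h1 := h0.cons w0 (fx1 b)
    have w1 := ec (m_x1 b) (fun i => i01 (w0 i))
    have h2 := h1.cons w1 (fx3 a)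
    have w2 := ec (m_x3 a) (fun i => i12 (w1 i))
    have h3 := h2.cons w2 (fy1 d)
    have w3 := ec (m_y1 d) (fun i => i23 (w2 i))
    have h4 := h3.cons w3 fy3'
    exact gen6_of h4 σ1
  · intro i a b c d e
    have wa := ec (ma_x2 c) (ec (ma_o' i) (e0 (W := Wa)))
    have hb : GF ![ρ c x2, o i] := mg_GF2 fun x y h => li2o i c 1 x y (by rw [GP.rho_one]; exact h)
    have h0 := hb.cons wa (fy2 e)
    have w0 := ec (m_y2 e) (fun i => ia0 (wa i))
    have h1 := h0.cons w0 (fx1 b)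
    have w1 := ec (m_x1 b) (fun i => i01 (w0 i))
    have h2 := h1.cons w1 (fx3 a)
    have w2 := ec (m_x3 a) (fun i => i12 (w1 i))
    have h3 := h2.cons w2 (fy1 d)
    exact gen6_of h3 σ2
  · intro i a b c d
    have w0 := ec (ia0 (ma_x2 c)) (ec (ia0 (ma_o d i)) (ec m_y2' (ec (m_y2 (J i)) (e0 (W := W0)))))
    have h1 := (GF4 (A i c d)).cons w0 (fx1 b)
    have w1 := ec (m_x1 b) (fun i => i01 (w0 i))
    have h2 := h1.cons w1 (fx3 a)
    exact gen6_of h2 (Equiv.refl _)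
  · intro j a d e
    have wa := ec (ma_x2 a) (ec (ma_x2J a j) (e0 (W := Wa)))
    have h0 := (mg_GF2 (li2J j a)).cons wa (fy2 e)
    have w0 := ec (m_y2 e) (fun i => ia0 (wa i))
    have h1 := h0.cons w0 (fx1 a)
    have w1 := ec (m_x1 a) (fun i => i01 (w0 i))
    have h3 := h1.cons (fun i => i12 (w1 i)) (fy1 d)
    have w3 := ec (m_y1 d) (fun i => i23 (i12 (w1 i)))
    have h4 := h3.cons w3 fy3'
    exact gen6_of h4 σ4
  · intro i j a d e
    have wa := ec (ma_x2 a) (ec (ma_x2J a j) (ec (ma_o' i) (e0 (W := Wa))))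
    have hb : GF ![ρ a x2, ρ a (ρ (J j) x2), o i] :=
      mg_GF3 fun x y z h => li3a j i a 1 x y z (by rw [GP.rho_one]; exact h)
    have h0 := hb.cons wa (fy2 e)
    have w0 := ec (m_y2 e) (fun i => ia0 (wa i))
    have h1 := h0.cons w0 (fx1 a)
    have w1 := ec (m_x1 a) (fun i => i01 (w0 i))
    have h3 := h1.cons (fun i => i12 (w1 i)) (fy1 d)
    exact gen6_of h3 σ5
  · intro i j a d
    have w0 := ec (ia0 (ma_x2 a)) (ec (ia0 (ma_x2J a j)) (ec (ia0 (ma_o d i))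
      (ec m_y2' (ec (m_y2 (J i)) (e0 (W := W0))))))
    have hb0 : LI4 (ρ a (ρ (J j) x2)) (ρ d (o i)) y2 (ρ (J i) y2) := by
      rw [← GP.rho_mul]; exact A i _ _
    have hb4 : LI4 (ρ a x2) (ρ a (ρ (J j) x2)) (ρ d (o i)) y2 := by
      have := Cl i j a d 1
      rwa [GP.rho_one] at this
    have h1 := (GF5 hb0 (A i a d) (B i j a) (Cl i j a d (J i)) hb4).cons w0 (fx1 a)
    exact gen6_of h1 (Equiv.refl _)

end SerreM
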