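import Pool.Agent.SerreM.MDefs

/-!
# MCROSS: the half sum around an axis of a half turn which is not conjugate
-/

namespace SerreM

open SerreK

section
variable {Γ : Type} [Group Γ] {ρ : Γ →* (V →ₗ[ℝ] V)}
variable {k : Type} [Field k]

/-- a weight invariant under right multiplication by `g` -/
theorem exists_weight2 {J g : Γ} (hJ2 : J * J = 1) (hJ1 : J ≠ 1) (hg2 : g * g = 1)
    (hgJ : ∀ δ, δ * g ≠ J * δ) :
    ∃ ε : Γ → k, (∀ δ, ε δ + ε (J * δ) = 1) ∧ ∀ δ, ε (δ * g) = ε δ := by
  classical
  have k1 : ∀ a : Γ, J * (J * a) = a := fun a => by rw [← mul_assoc, hJ2, one_mul]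
  have k2 : ∀ a : Γ, a * g * g = a := fun a => by rw [mul_assoc, hg2, mul_one]
  let S : Setoid Γ :=
    { r := fun a b => b = a ∨ b = J * a ∨ b = a * g ∨ b = J * a * g
      iseqv := by
        refine ⟨fun a => Or.inl rfl, ?_, ?_⟩
        · rintro a b (h | h | h | h)
          · exact Or.inl h.symm
          · refine Or.inr (Or.inl ?_)
            rw [h, k1]
          · refine Or.inr (Or.inr (Or.inl ?_))
            rw [h, k2]
          · refine Or.inr (Or.inr (Or.inr ?_))
            rw [h, mul_assoc J a g, k1, k2]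
        · rintro a b c (h | h | h | h) (h' | h' | h' | h') <;> subst h <;> subst h' <;>
            simp only [k1, hg2, mul_assoc, true_or, or_true, mul_one] }
  have hout : ∀ δ, δ = (Quotient.mk S δ).out ∨ δ = J * (Quotient.mk S δ).out ∨
      δ = (Quotient.mk S δ).out * g ∨ δ = J * (Quotient.mk S δ).out * g := by
    intro δ
    have : S.r (Quotient.mk S δ).out δ := Quotient.exact (Quotient.out_eq _)
    exact this
  have hcl1 : ∀ δ, Quotient.mk S (J * δ) = Quotient.mk S δ := by
    intro δ
    symm
    apply Quotient.sound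
    exact Or.inr (Or.inl rfl)
  have hcl2 : ∀ δ, Quotient.mk S (δ * g) = Quotient.mk S δ := by
    intro δ
    symm
    apply Quotient.sound
    exact Or.inr (Or.inr (Or.inl rfl))
  have hA : ∀ x : Γ, x ≠ J * x := fun x h => hJ1 (right_eq_mul.mp h)
  have hC : ∀ x : Γ, x ≠ J * x * g := by
    intro x h
    apply hgJ x
    have := congrArg (fun y => y * g) h
    simp only [k2] at this
    exact this
  refine ⟨fun δ => if δ = (Quotient.mk S δ).out ∨ δ = (Quotient.mk S δ).out * g then 1 else 0,
    ?_, ?_⟩
  · intro δ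
    beta_reduce
    rw [hcl1]
    set r := (Quotient.mk S δ).out with hr
    have hor := hout δ
    rw [← hr] at hor
    rcases hor with h' | h' | h' | h'
    · rw [if_pos (Or.inl h'), if_neg, add_zero]
      rw [h']
      rintro (h | h)
      · exact hA r h.symm
      · exact hgJ r h.symm
    · rw [if_neg, if_pos, zero_add]
      · left; rw [h', k1]
      · rw [h']
        rintro (h | h)
        · exact hA r h.symm
        · exact hgJ r h.symm
    · rw [if_pos (Or.inr h'), if_neg, add_zero]
      rw [h', ← mul_assoc]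
      rintro (h | h)
      · exact hC r h.symm
      · exact hA (r) (mul_right_cancel h).symm
    · rw [if_neg, if_pos, zero_add]
      · right; rw [h', mul_assoc J r g, k1]
      · rw [h']
        rintro (h | h)
        · exact hC r h.symm
        · exact hA (r) (mul_right_cancel h).symm
  · intro δ
    beta_reduce
    rw [hcl2]
    congr 1
    apply propext
    constructor
    · rintro (h | h)
      · right; rw [← h, k2]
      · left; exact mul_right_cancel h
    · rintro (h | h)
      · right; exact congrArg (fun x => x * g) h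
      · left
        have h3 := congrArg (fun x => x * g) h
        simp only [k2] at h3
        exact h3

variable [CharP k 2] (ψ : Γ →* kˣ)

/-- the half sum of a half turn which is not conjugate to `J` vanishes -/
theorem HR_cross {J η : Γ} (P : Pts ρ J η) {ε : Γ → k} (hε : ∀ δ, ε δ + ε (J * δ) = 1)
    (hψJ : ψ J = 1) {g : Γ} (hg2 : g * g = 1) (hg1 : g ≠ 1) (hgJ : ∀ δ, δ * g ≠ J * δ)
    (hψg : ψ g = 1) {x : V} (hx : InC x) : HR ψ P ε x (ρ g x) = 0 := by
  obtain ⟨ε', h1, h2⟩ := exists_weight2 (k := k) P.J2 P.J1 hg2 hgJ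
  have hx' : InC (ρ g x) := P.inC g x hx
  unfold HR
  rw [wsum_indep P.J2 P.J1 (IR_fin ψ P hx hx') hε h1 (fun δ => IR_J ψ P hψJ x (ρ g x) δ)]
  have hgg : ∀ v, ρ g (ρ g v) = v := fun v => by rw [← rho_mul, hg2, rho_one]
  have key : ∀ a b c δ, iB ρ ψ a b c x (ρ g x) (δ * g) = iB ρ ψ a b c x (ρ g x) δ := by
    intro a b c δ
    have h := iB_mul (ρ := ρ) ψ g a b c x (ρ g x) δ
    rw [hgg, hψg, inv_one, Units.val_one, one_mul, iB_swap] at h
    exact h.symm
  unfold wsum
  refine finsum_involution (wsum_supp (IR_fin ψ P hx hx')) (fun δ => δ * g) ?_ ?_ ?_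
  · intro δ
    rw [mul_assoc, hg2, mul_one]
  · intro δ _ h3
    exact hg1 (mul_eq_left.mp h3)
  · intro δ
    rw [h2]
    unfold IR
    simp only [key]

end

end SerreM
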