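import Pool.Agent.SerreM.MDefs

/-!
# MEVAL: the value of the half sum, for general coordinates and both types of axes
-/

namespace SerreM

open SerreK

/-! ### Transport by a linear change of coordinates -/

section transport
variable {Γ : Type} [Group Γ]

/-- the conjugate representation -/
noncomputable def conjRep (ρ : Γ →* (V →ₗ[ℝ] V)) (L : V ≃ₗ[ℝ] V) : Γ →* (V →ₗ[ℝ] V) where
  toFun g := L.toLinearMap ∘ₗ ρ g ∘ₗ L.symm.toLinearMap
  map_one' := by
    apply LinearMap.ext
    intro v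
    simp
  map_mul' g h := by
    apply LinearMap.ext
    intro v
    simp

theorem conjRep_apply (ρ : Γ →* (V →ₗ[ℝ] V)) (L : V ≃ₗ[ℝ] V) (g : Γ) (v : V) :
    conjRep ρ L g v = L (ρ g (L.symm v)) := rfl

theorem conjRep_L (ρ : Γ →* (V →ₗ[ℝ] V)) (L : V ≃ₗ[ℝ] V) (g : Γ) (v : V) :
    conjRep ρ L g (L v) = L (ρ g v) := by
  rw [conjRep_apply, LinearEquiv.symm_apply_apply]

theorem hit_L (L : V ≃ₗ[ℝ] V) {a b c p q : V} :
    Hit (L a) (L b) (L c) (L p) (L q) ↔ Hit a b c p q := by
  constructor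
  · intro h
    have := hit_map_aux L.symm.toLinearMap h
    simpa using this
  · intro h
    exact hit_map_aux L.toLinearMap h

theorem gen_L (L : V ≃ₗ[ℝ] V) {a b c p q r : V} (h : Gen6 a b c p q r) :
    Gen6 (L a) (L b) (L c) (L p) (L q) (L r) := by
  intro x hx
  apply h x
  apply L.injective
  rw [map_zero, ← hx]
  simp only [map_add, map_smul]

variable {ρ : Γ →* (V →ₗ[ℝ] V)} {J η : Γ}

theorem inC_conj {L : V ≃ₗ[ℝ] V} (hL : ∀ v, InC (L v) ↔ InC v)
    (h : ∀ g v, InC v → InC (ρ g v)) (g : Γ) (v : V) (hv : InC v) : InC (conjRep ρ L g v) := by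
  rw [conjRep_apply, hL]
  apply h
  rw [← hL, LinearEquiv.apply_symm_apply]
  exact hv

theorem proper_conj {L : V ≃ₗ[ℝ] V} (hL : ∀ v, InC (L v) ↔ InC v) (h : Proper ρ) :
    Proper (conjRep ρ L) := by
  intro a b c p q ha hb hc hp hq
  have hs : ∀ v, InC v → InC (L.symm v) := by
    intro v hv
    rw [← hL, LinearEquiv.apply_symm_apply]
    exact hv
  refine (h _ _ _ _ _ (hs a ha) (hs b hb) (hs c hc) (hs p hp) (hs q hq)).subset ?_
  intro g hg
  change Hit _ _ _ _ _ at hg
  change Hit _ _ _ _ _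
  rw [conjRep_apply, conjRep_apply, conjRep_apply] at hg
  rw [← hit_L L, LinearEquiv.apply_symm_apply, LinearEquiv.apply_symm_apply]
  exact hg

/-- transport of the base points -/
noncomputable def trPts (P : Pts' ρ J η) {L : V ≃ₗ[ℝ] V} (hL : ∀ v, InC (L v) ↔ InC v) :
    Pts' (conjRep ρ L) J η where
  o := L P.o
  y1 := L P.y1
  y2 := L P.y2
  o_in := (hL _).mpr P.o_in
  y1_in := (hL _).mpr P.y1_in
  y2_in := (hL _).mpr P.y2_in
  Jo := by rw [conjRep_L, P.Jo]
  J2 := P.J2
  J1 := P.J1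
  ηJ := P.ηJ
  inC := inC_conj hL P.inC
  proper := proper_conj hL P.proper
  x1 := L P.x1
  x2 := L P.x2
  x3 := L P.x3
  y3 := L P.y3
  x1_in := (hL _).mpr P.x1_in
  x2_in := (hL _).mpr P.x2_in
  x3_in := (hL _).mpr P.x3_in
  y3_in := (hL _).mpr P.y3_in
  g1 a b c d e := by simp only [conjRep_L]; exact gen_L L (P.g1 a b c d e)
  g2 a b c d e := by simp only [conjRep_L]; exact gen_L L (P.g2 a b c d e)
  g3 a b c d := by simp only [conjRep_L]; exact gen_L L (P.g3 a b c d)
  g4 a d e := by simp only [conjRep_L]; exact gen_L L (P.g4 a d e)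
  g5 a d e := by simp only [conjRep_L]; exact gen_L L (P.g5 a d e)
  g6 a d := by simp only [conjRep_L]; exact gen_L L (P.g6 a d)

/-- replacing `x1, x2` by `r x1, r x2` -/
noncomputable def movePts (P : Pts' ρ J η) {r : Γ} (hr : r * J = J * r) : Pts' ρ J η :=
  { P with
    x1 := ρ r P.x1
    x2 := ρ r P.x2
    x1_in := P.inC _ _ P.x1_in
    x2_in := P.inC _ _ P.x2_in
    g1 := fun a b c d e => by
      rw [← rho_mul ρ b r, ← rho_mul ρ c r]
      exact P.g1 a (b * r) (c * r) d e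
    g2 := fun a b c d e => by
      rw [← rho_mul ρ b r, ← rho_mul ρ c r]
      exact P.g2 a (b * r) (c * r) d e
    g3 := fun a b c d => by
      rw [← rho_mul ρ b r, ← rho_mul ρ c r]
      exact P.g3 a (b * r) (c * r) d
    g4 := fun a d e => by
      rw [← rho_mul ρ J r, ← hr, rho_mul ρ r J, ← rho_mul ρ a r, ← rho_mul ρ a r, ← rho_mul ρ a r]
      exact P.g4 (a * r) d e
    g5 := fun a d e => by
      rw [← rho_mul ρ J r, ← hr, rho_mul ρ r J, ← rho_mul ρ a r, ← rho_mul ρ a r, ← rho_mul ρ a r]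
      exact P.g5 (a * r) d e
    g6 := fun a d => by
      rw [← rho_mul ρ J r, ← hr, rho_mul ρ r J, ← rho_mul ρ a r, ← rho_mul ρ a r, ← rho_mul ρ a r]
      exact P.g6 (a * r) d }

end transport

section sums
variable {Γ : Type} [Group Γ] {ρ : Γ →* (V →ₗ[ℝ] V)}
variable {k : Type} [Field k] [CharP k 2] (ψ : Γ →* kˣ)
variable {J η : Γ}

/-- the sum along the axis, in diagonal coordinates -/
theorem IR_sum (P : Pts' ρ J η) (hJ : ∀ v, ρ J v = ![v 0, v 1, -v 2, -v 3]) {l : ℝ} (hl : 1 < l)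
    (hη : ∀ v, ρ η v 0 = l * v 0 ∧ ρ η v 1 = l⁻¹ * v 1) (hψη : ψ η = 1) :
    ∑ᶠ n : ℤ, IR ψ P.toPts P.x2 (ρ J P.x2) (η ^ n) = 1 := by
  have hcomm : ∀ n : ℤ, η ^ n * J = J * η ^ n := by
    intro n
    have : Commute η J := P.ηJ
    exact (this.zpow_left n).eq
  have e4 : ∀ n : ℤ, IR ψ P.toPts P.x2 (ρ J P.x2) (η ^ n) = _ :=
    fun n => IR_axis ψ P hJ hl hη hψη n
  rw [finsum_congr e4]
  have hb : 0 < 2 * Real.log l := by have := Real.log_pos hl; linarith
  obtain ⟨px0, px1⟩ := inC_pos P.x2_in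
  obtain ⟨py0, py1⟩ := inC_pos P.y2_in
  obtain ⟨po0, po1⟩ := inC_pos P.o_in
  have hJo := P.Jo
  have ho2 : P.o 2 = 0 ∧ P.o 3 = 0 := by
    have h := hJ P.o
    rw [hJo] at h
    constructor
    · have := congrFun h 2
      simp at this
      linarith
    · have := congrFun h 3
      simp at this
      linarith
  have hlogx : ∀ n : ℤ, Real.log (ρ (η ^ n) P.x2 0 / ρ (η ^ n) P.x2 1) =
      Real.log (P.x2 0 / P.x2 1) + n * (2 * Real.log l) := by
    intro n
    rw [(rho_zpow hl hη n P.x2).1, (rho_zpow hl hη n P.x2).2]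
    have hln : 0 < l ^ n := by positivity
    have e : l ^ n * P.x2 0 / ((l ^ n)⁻¹ * P.x2 1) = (P.x2 0 / P.x2 1) * (l ^ n * l ^ n) := by
      field_simp
    rw [e, Real.log_mul (by positivity) (by positivity), Real.log_mul (by positivity)
      (by positivity), Real.log_zpow]
    ring
  refine count_btw k _ _ _ _ hb ?_ ?_
  · intro n hn
    rw [← hlogx n] at hn
    obtain ⟨q0, q1⟩ := inC_pos (P.inC (η ^ n) _ P.x2_in)
    have h1 := slope_eq q0 q1 po0 po1 hn
    have hc : ρ (η ^ n) (ρ J P.x2) = ρ J (ρ (η ^ n) P.x2) := by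
      rw [← rho_mul, ← rho_mul, hcomm]
    have h2 := P.g6 (η ^ n) 1 ![0, P.o 0, P.o 0, -(2 * ρ (η ^ n) P.x2 0), 0, 0] (by
      rw [hc, hJ (ρ (η ^ n) P.x2), rho_one]
      apply ext4 <;> simp only [Pi.add_apply, Pi.smul_apply, Pi.sub_apply, Pi.zero_apply,
        smul_eq_mul, Matrix.cons_val, ho2.1, ho2.2] <;> linarith) 0 4 (by decide) rfl rfl
    have h3 := congrFun h2 1
    exact po0.ne' h3
  · intro n hn
    rw [← hlogx n] at hn
    obtain ⟨q0, q1⟩ := inC_pos (P.inC (η ^ n) _ P.x2_in)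
    have h1 := slope_eq q0 q1 py0 py1 hn
    have hc : ρ (η ^ n) (ρ J P.x2) = ρ J (ρ (η ^ n) P.x2) := by
      rw [← rho_mul, ← rho_mul, hcomm]
    have h2 := P.g6 (η ^ n) 1 ![0, P.y2 0, P.y2 0, 0, -(ρ (η ^ n) P.x2 0), -(ρ (η ^ n) P.x2 0)]
      (by
      rw [hc, hJ (ρ (η ^ n) P.x2), hJ P.y2, rho_one]
      apply ext4 <;> simp only [Pi.add_apply, Pi.smul_apply, Pi.sub_apply, Pi.zero_apply,
        smul_eq_mul, Matrix.cons_val] <;> linarith) 0 3 (by decide) rfl rfl
    have h3 := congrFun h2 1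
    exact py0.ne' h3

omit [CharP k 2] in
theorem IR_tr (P : Pts' ρ J η) {L : V ≃ₗ[ℝ] V} (hL : ∀ v, InC (L v) ↔ InC v) (p q : V) (δ : Γ) :
    IR ψ (trPts P hL).toPts (L p) (L q) δ = IR ψ P.toPts p q δ := by
  have key : ∀ a b c : V, iB (conjRep ρ L) ψ (L a) (L b) (L c) (L p) (L q) δ =
      iB ρ ψ a b c p q δ := by
    intro a b c
    unfold iB
    rw [conjRep_L, conjRep_L, ind_congr (hit_L L)]
  unfold IR
  change iB (conjRep ρ L) ψ (L P.o) (L P.y1) (L P.y2) (L p) (L q) δ +
    iB (conjRep ρ L) ψ (L P.o) (L P.y1) (conjRep ρ L η (L P.y2)) (L p) (L q) δ +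
    iB (conjRep ρ L) ψ (L P.o) (conjRep ρ L J (L P.y1)) (conjRep ρ L J (L P.y2)) (L p) (L q) δ +
    iB (conjRep ρ L) ψ (L P.o) (conjRep ρ L J (L P.y1))
      (conjRep ρ L J (conjRep ρ L η (L P.y2))) (L p) (L q) δ +
    iB (conjRep ρ L) ψ (L P.o) (L P.y2) (conjRep ρ L J (L P.y2)) (L p) (L q) δ +
    iB (conjRep ρ L) ψ (L P.o) (conjRep ρ L η (L P.y2))
      (conjRep ρ L J (conjRep ρ L η (L P.y2))) (L p) (L q) δ = _
  simp only [conjRep_L, key]

/-- the sum along the axis -/
theorem IR_sumL (P : Pts' ρ J η) {L : V ≃ₗ[ℝ] V} (hL : Diag ρ J L) {l : ℝ} (hl : 1 < l)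
    (hη : ∀ v, L (ρ η v) 0 = l * L v 0 ∧ L (ρ η v) 1 = l⁻¹ * L v 1) (hψη : ψ η = 1) :
    ∑ᶠ n : ℤ, IR ψ P.toPts P.x2 (ρ J P.x2) (η ^ n) = 1 := by
  have h := IR_sum ψ (trPts P hL.cone) (fun v => ?_) hl (fun v => ?_) hψη
  · rw [← h]
    apply finsum_congr
    intro n
    change _ = IR ψ (trPts P hL.cone).toPts (L P.x2) (conjRep ρ L J (L P.x2)) (η ^ n)
    rw [conjRep_L, IR_tr]
  · rw [conjRep_apply, hL.diag, LinearEquiv.apply_symm_apply]
  · have := hη (L.symm v)
    rw [LinearEquiv.apply_symm_apply] at this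
    exact this

omit [CharP k 2] in
theorem IR_right (P : Pts' ρ J η) {r : Γ} (hr : r * J = J * r) (hψr : ψ r = 1) (δ : Γ) :
    IR ψ P.toPts P.x2 (ρ J P.x2) (δ * r) =
      IR ψ (movePts P hr).toPts (movePts P hr).x2 (ρ J (movePts P hr).x2) δ := by
  have key : ∀ b c, iB ρ ψ P.o b c P.x2 (ρ J P.x2) (δ * r) =
      iB ρ ψ P.o b c (ρ r P.x2) (ρ J (ρ r P.x2)) δ := by
    intro b c
    unfold iB
    rw [map_mul, hψr, mul_one, rho_mul, rho_mul ρ δ r, ← rho_mul ρ r J, hr, rho_mul ρ J r]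
  unfold IR
  rw [key, key, key, key, key, key]
  rfl

/-- existence of an adapted weight -/
theorem exists_weight' (hJ2 : J * J = 1) (hJ1 : J ≠ 1) (T : Set Γ)
    (hT : ∀ δ, δ * J = J * δ → (δ ∈ T ↔ J * δ ∉ T)) :
    ∃ ε : Γ → k, (∀ δ, ε δ + ε (J * δ) = 1) ∧ (∀ δ, δ * J ≠ J * δ → ε (δ * J) = ε δ) ∧
      (∀ δ, δ * J = J * δ → δ ∈ T → ε δ = 1) ∧ (∀ δ, δ * J = J * δ → δ ∉ T → ε δ = 0) := by
  classical
  let S : Setoid Γ :=
    { r := fun a b => b = a ∨ b = J * a ∨ b = a * J ∨ b = J * a * J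
      iseqv := by
        refine ⟨fun a => Or.inl rfl, ?_, ?_⟩
        · rintro a b (h | h | h | h)
          · exact Or.inl h.symm
          · refine Or.inr (Or.inl ?_)
            rw [h, ← mul_assoc, hJ2, one_mul]
          · refine Or.inr (Or.inr (Or.inl ?_))
            rw [h, mul_assoc, hJ2, mul_one]
          · refine Or.inr (Or.inr (Or.inr ?_))
            rw [h]
            calc a = J * J * a * (J * J) := by rw [hJ2, one_mul, mul_one]
              _ = _ := by group
        · have key : ∀ a : Γ, J * (J * a) = a := fun a => by rw [← mul_assoc, hJ2, one_mul]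
          have key' : ∀ a : Γ, a * J * J = a := fun a => by rw [mul_assoc, hJ2, mul_one]
          rintro a b c (h | h | h | h) (h' | h' | h' | h') <;> subst h <;> subst h' <;>
            simp only [key, key', mul_assoc, true_or, or_true, mul_one] }
  have hout : ∀ δ, δ = (Quotient.mk S δ).out ∨ δ = J * (Quotient.mk S δ).out ∨
      δ = (Quotient.mk S δ).out * J ∨ δ = J * (Quotient.mk S δ).out * J := by
    intro δ
    have : S.r (Quotient.mk S δ).out δ := Quotient.exact (Quotient.out_eq _)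
    exact this
  have hcl1 : ∀ δ, Quotient.mk S (J * δ) = Quotient.mk S δ := by
    intro δ
    symm
    apply Quotient.sound
    exact Or.inr (Or.inl rfl)
  have hcl2 : ∀ δ, Quotient.mk S (δ * J) = Quotient.mk S δ := by
    intro δ
    symm
    apply Quotient.sound
    exact Or.inr (Or.inr (Or.inl rfl))
  refine ⟨fun δ => if δ * J = J * δ then (if δ ∈ T then 1 else 0) else
    (if δ = (Quotient.mk S δ).out ∨ δ = (Quotient.mk S δ).out * J then 1 else 0), ?_, ?_, ?_, ?_⟩
  · intro δ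
    by_cases hc : δ * J = J * δ
    · have hc' : J * δ * J = J * (J * δ) := by rw [mul_assoc, hc]
      beta_reduce
      rw [if_pos hc, if_pos hc']
      by_cases hm : δ ∈ T
      · rw [if_pos hm, if_neg ((hT δ hc).mp hm), add_zero]
      · have hm' : J * δ ∈ T := by
          by_contra h
          exact hm ((hT δ hc).mpr h)
        rw [if_neg hm, if_pos hm', zero_add]
    · have hc' : ¬ J * δ * J = J * (J * δ) := by
        intro h
        apply hc
        rw [mul_assoc] at h
        exact mul_left_cancel h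
      beta_reduce
      rw [if_neg hc, if_neg hc', hcl1]
      set r := (Quotient.mk S δ).out with hr
      have hor := hout δ
      rw [← hr] at hor
      have hrc : r * J ≠ J * r := by
        intro h
        apply hc
        have hrJ : Commute r J := h
        have hJJ : Commute J J := Commute.refl J
        rcases hor with h' | h' | h' | h' <;> rw [h']
        · exact hrJ.eq
        · exact (hJJ.mul_left hrJ).eq
        · exact (hrJ.mul_left hJJ).eq
        · exact ((hJJ.mul_left hrJ).mul_left hJJ).eq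
      have hA : ∀ x : Γ, x ≠ J * x := fun x h => hJ1 (right_eq_mul.mp h)
      have hB : ∀ x : Γ, x ≠ x * J := fun x h => hJ1 (left_eq_mul.mp h)
      have hC1 : r ≠ J * r * J := by
        intro h
        apply hrc
        have := congrArg (fun x => J * x) h
        simp only [← mul_assoc, hJ2, one_mul] at this
        exact this.symm
      rcases hor with h' | h' | h' | h'
      · rw [if_pos (Or.inl h'), if_neg, add_zero]
        rw [h']
        rintro (h | h)
        · exact hA r h.symm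
        · exact hrc h.symm
      · rw [if_neg, if_pos, zero_add]
        · left; rw [h', ← mul_assoc, hJ2, one_mul]
        · rw [h']
          rintro (h | h)
          · exact hA r h.symm
          · exact hrc h.symm
      · rw [if_pos (Or.inr h'), if_neg, add_zero]
        rw [h', ← mul_assoc]
        rintro (h | h)
        · exact hC1 h.symm
        · exact hA (r) (mul_right_cancel h).symm
      · rw [if_neg, if_pos, zero_add]
        · right; rw [h', ← mul_assoc, ← mul_assoc, hJ2, one_mul]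
        · rw [h']
          rintro (h | h)
          · exact hC1 h.symm
          · exact hA (r) (mul_right_cancel h).symm
  · intro δ hc
    have hc' : ¬ δ * J * J = J * (δ * J) := by
      intro h
      apply hc
      rw [mul_assoc, hJ2, mul_one, ← mul_assoc] at h
      have := congrArg (fun x => x * J) h
      simp only [mul_assoc, hJ2, mul_one] at this
      exact this
    beta_reduce
    rw [if_neg hc, if_neg hc', hcl2]
    congr 1
    apply propext
    constructor
    · rintro (h | h)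
      · right; rw [← h, mul_assoc, hJ2, mul_one]
      · left; exact mul_right_cancel h
    · rintro (h | h)
      · right; exact congrArg (fun x => x * J) h
      · left
        have h3 := congrArg (fun x => x * J) h
        simp only [mul_assoc, hJ2, mul_one] at h3
        exact h3
  · intro δ hc hm
    beta_reduce
    rw [if_pos hc, if_pos hm]
  · intro δ hc hm
    beta_reduce
    rw [if_pos hc, if_neg hm]

/-- a half sum of a doubly invariant function is the sum over `T` -/
theorem wsum_axis' (hJ2 : J * J = 1) (hJ1 : J ≠ 1) (T : Set Γ)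
    (hTc : ∀ δ ∈ T, δ * J = J * δ) (hT : ∀ δ, δ * J = J * δ → (δ ∈ T ↔ J * δ ∉ T))
    {ε : Γ → k} (hε : ∀ δ, ε δ + ε (J * δ) = 1) {F : Γ → k}
    (hF : (Function.support F).Finite) (hJF : ∀ δ, F (J * δ) = F δ)
    (hFJ : ∀ δ, F (δ * J) = F δ) :
    wsum ε F = ∑ᶠ δ ∈ T, F δ := by
  classical
  obtain ⟨ε', w1, w2, w3, w4⟩ := exists_weight' (k := k) hJ2 hJ1 T hT
  rw [wsum_indep hJ2 hJ1 hF hε w1 hJF]
  set G1 : Γ → k := fun δ => if δ * J = J * δ then ε' δ * F δ else 0 with hG1
  set G2 : Γ → k := fun δ => if δ * J = J * δ then 0 else ε' δ * F δ with hG2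
  have s1 : (Function.support G1).Finite := by
    refine (wsum_supp (ε := ε') hF).subset ?_
    intro δ hδ
    rw [Function.mem_support] at hδ ⊢
    intro h
    apply hδ
    rw [hG1]
    beta_reduce
    rw [h, ite_self]
  have s2 : (Function.support G2).Finite := by
    refine (wsum_supp (ε := ε') hF).subset ?_
    intro δ hδ
    rw [Function.mem_support] at hδ ⊢
    intro h
    apply hδ
    rw [hG2]
    beta_reduce
    rw [h, ite_self]
  have hsplit : wsum ε' F = (∑ᶠ δ, G1 δ) + ∑ᶠ δ, G2 δ := by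
    rw [← finsum_add_distrib s1 s2]
    unfold wsum
    apply finsum_congr
    intro δ
    rw [hG1, hG2]
    beta_reduce
    by_cases h : δ * J = J * δ
    · rw [if_pos h, if_pos h, add_zero]
    · rw [if_neg h, if_neg h, zero_add]
  have z2 : ∑ᶠ δ, G2 δ = 0 := by
    refine finsum_involution s2 (fun δ => δ * J) ?_ ?_ ?_
    · intro δ
      rw [mul_assoc, hJ2, mul_one]
    · intro δ _ h1
      exact hJ1 (mul_eq_left.mp h1)
    · intro δ
      rw [hG2]
      beta_reduce
      by_cases h : δ * J = J * δ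
      · have h' : δ * J * J = J * (δ * J) := by rw [h, mul_assoc, h]
        rw [if_pos h, if_pos h']
      · have h' : ¬ δ * J * J = J * (δ * J) := by
          intro h3
          apply h
          rw [mul_assoc, hJ2, mul_one, ← mul_assoc] at h3
          have := congrArg (fun x => x * J) h3
          simp only [mul_assoc, hJ2, mul_one] at this
          exact this
        rw [if_neg h, if_neg h', w2 δ h, hFJ]
  rw [hsplit, z2, add_zero]
  have e4 : ∑ᶠ δ, G1 δ = ∑ᶠ δ ∈ T, G1 δ := by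
    rw [← finsum_mem_univ]
    apply finsum_mem_inter_support_eq'
    intro δ hδ
    rw [Function.mem_support] at hδ
    refine ⟨fun _ => ?_, fun _ => Set.mem_univ _⟩
    by_contra hn
    apply hδ
    rw [hG1]
    beta_reduce
    split_ifs with h
    · rw [w4 δ h hn, zero_mul]
    · rfl
  rw [e4]
  apply finsum_mem_congr rfl
  intro δ hδ
  rw [hG1]
  beta_reduce
  rw [if_pos (hTc δ hδ), w3 δ (hTc δ hδ) hδ, one_mul]

/-- right invariance under `J` of the summand -/
theorem IR_FJ (P : Pts' ρ J η) (hψJ : ψ J = 1) (δ : Γ) :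
    IR ψ P.toPts P.x2 (ρ J P.x2) (δ * J) = IR ψ P.toPts P.x2 (ρ J P.x2) δ := by
  have hJJ : ∀ v, ρ J (ρ J v) = v := fun v => by rw [← rho_mul, P.J2, rho_one]
  have key : ∀ b c, iB ρ ψ P.o b c P.x2 (ρ J P.x2) (δ * J) =
      iB ρ ψ P.o b c P.x2 (ρ J P.x2) δ := by
    intro b c
    have h := iB_mul (ρ := ρ) ψ J P.o b c P.x2 (ρ J P.x2) δ
    rw [hJJ, hψJ, inv_one, Units.val_one, one_mul, iB_swap] at h
    exact h.symm
  unfold IR
  rw [key, key, key, key, key, key]

theorem eta_inf (P : Pts' ρ J η) {L : V ≃ₗ[ℝ] V} (hL : Diag ρ J L) {l : ℝ} (hl : 1 < l)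
    (hη : ∀ v, L (ρ η v) 0 = l * L v 0 ∧ L (ρ η v) 1 = l⁻¹ * L v 1) (n : ℤ) (hn : η ^ n = 1) :
    n = 0 := by
  have hη' : ∀ v, conjRep ρ L η v 0 = l * v 0 ∧ conjRep ρ L η v 1 = l⁻¹ * v 1 := by
    intro v
    have := hη (L.symm v)
    rw [LinearEquiv.apply_symm_apply] at this
    exact this
  have h1 := (rho_zpow hl hη' n (L P.x2)).1
  rw [hn, rho_one] at h1
  have h2 : l ^ n = 1 := by
    have := (inC_pos ((hL.cone _).mpr P.x2_in)).1
    field_simp at h1
    linarith
  have h3 : (n : ℝ) * Real.log l = 0 := by rw [← Real.log_zpow, h2, Real.log_one]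
  have h4 : Real.log l ≠ 0 := (Real.log_pos hl).ne'
  exact_mod_cast (mul_eq_zero.mp h3).resolve_right h4

end sums

section
variable {Γ : Type} [Group Γ] {ρ : Γ →* (V →ₗ[ℝ] V)}
variable {k : Type} [Field k] [CharP k 2] (ψ : Γ →* kˣ)

/-- Proof: transport everything by `L` (`Hit`, `Gen6`, `InC` are invariant) and apply `HR_eval`. -/
theorem HR_eval1 {J η : Γ} (P : Pts' ρ J η) {L : V ≃ₗ[ℝ] V} (hL : Diag ρ J L) {l : ℝ}
    (hl : 1 < l) (hη : ∀ v, L (ρ η v) 0 = l * L v 0 ∧ L (ρ η v) 1 = l⁻¹ * L v 1)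
    (hZ : Type1 J η) (hψJ : ψ J = 1) (hψη : ψ η = 1) {ε : Γ → k}
    (hε : ∀ δ, ε δ + ε (J * δ) = 1) : HR ψ P.toPts ε P.x2 (ρ J P.x2) = 1 := by
  have hinf := eta_inf P hL hl hη
  have hcomm : ∀ n : ℤ, η ^ n * J = J * η ^ n := by
    intro n
    have : Commute η J := P.ηJ
    exact (this.zpow_left n).eq
  have hinj : Function.Injective (fun n : ℤ => η ^ n) := by
    intro a b hab
    have h1 : η ^ (a - b) = 1 := by
      rw [zpow_sub]
      change η ^ a = η ^ b at hab
      rw [hab, mul_inv_cancel]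
    have := hinf _ h1
    omega
  have hne : ∀ n m : ℤ, J * η ^ n ≠ η ^ m := by
    intro n m h
    have h1 : J = η ^ (m - n) := by
      rw [zpow_sub, ← h, mul_inv_cancel_right]
    have h2 : η ^ (m - n + (m - n)) = 1 := by rw [zpow_add, ← h1, P.J2]
    have h3 := hinf _ h2
    have h4 : m - n = 0 := by omega
    rw [h4, zpow_zero] at h1
    exact P.J1 h1
  have key : ∀ a : Γ, J * (J * a) = a := fun a => by rw [← mul_assoc, P.J2, one_mul]
  unfold HR
  rw [wsum_axis' P.J2 P.J1 (Set.range (fun n : ℤ => η ^ n)) ?_ ?_ hε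
    (IR_fin ψ P.toPts P.x2_in (P.inC J _ P.x2_in)) (IR_J ψ P.toPts hψJ _ _) (IR_FJ ψ P hψJ)]
  · rw [finsum_mem_range hinj]
    exact IR_sumL ψ P hL hl hη hψη
  · rintro _ ⟨n, rfl⟩
    exact hcomm n
  · intro δ hδ
    constructor
    · rintro ⟨n, rfl⟩ ⟨m, hm⟩
      exact hne n m hm.symm
    · intro h
      obtain ⟨n, hn | hn⟩ := hZ δ hδ
      · exact ⟨n, hn.symm⟩
      · exfalso
        apply h
        refine ⟨n, ?_⟩
        rw [hn, key]

/-- Proof: as `HR_eval`; the elements `r η ^ n` contribute another `1`. -/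
theorem HR_eval2 {J η r : Γ} (P : Pts' ρ J η) {L : V ≃ₗ[ℝ] V} (hL : Diag ρ J L) {l : ℝ}
    (hl : 1 < l) (hη : ∀ v, L (ρ η v) 0 = l * L v 0 ∧ L (ρ η v) 1 = l⁻¹ * L v 1)
    (hZ : Type2 J η r) (hψJ : ψ J = 1) (hψη : ψ η = 1) (hψr : ψ r = 1) {ε : Γ → k}
    (hε : ∀ δ, ε δ + ε (J * δ) = 1) : HR ψ P.toPts ε P.x2 (ρ J P.x2) = 0 := by
  obtain ⟨hrJ, hrη, hZ⟩ := hZ
  have hinf := eta_inf P hL hl hη
  have hcomm : ∀ n : ℤ, η ^ n * J = J * η ^ n := by
    intro n
    have : Commute η J := P.ηJ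
    exact (this.zpow_left n).eq
  have hinj : Function.Injective (fun n : ℤ => η ^ n) := by
    intro a b hab
    have h1 : η ^ (a - b) = 1 := by
      rw [zpow_sub]
      change η ^ a = η ^ b at hab
      rw [hab, mul_inv_cancel]
    have := hinf _ h1
    omega
  have hinjr : Function.Injective (fun n : ℤ => r * η ^ n) := by
    intro a b hab
    exact hinj (mul_left_cancel hab)
  have hne : ∀ n m : ℤ, J * η ^ n ≠ η ^ m := by
    intro n m h
    have h1 : J = η ^ (m - n) := by
      rw [zpow_sub, ← h, mul_inv_cancel_right]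
    have h2 : η ^ (m - n + (m - n)) = 1 := by rw [zpow_add, ← h1, P.J2]
    have h3 := hinf _ h2
    have h4 : m - n = 0 := by omega
    rw [h4, zpow_zero] at h1
    exact P.J1 h1
  have key : ∀ a : Γ, J * (J * a) = a := fun a => by rw [← mul_assoc, P.J2, one_mul]
  have hrn : ∀ n : ℤ, r * η ^ n = (η ^ n)⁻¹ * r := by
    intro n
    have h1 : r * η ^ n * r⁻¹ = (r * η * r⁻¹) ^ n := conj_zpow.symm
    rw [hrη, inv_zpow] at h1
    rw [← h1, inv_mul_cancel_right]
  -- `r` is not in the group generated by `J, η`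
  have hη2 : η⁻¹ ≠ η := by
    intro h
    have h1 : η ^ (2 : ℤ) = 1 := by
      rw [zpow_two]
      nth_rewrite 1 [← h]
      exact inv_mul_cancel η
    have := hinf _ h1
    omega
  have hr1 : ∀ n : ℤ, r ≠ η ^ n := by
    intro n h
    apply hη2
    rw [← hrη, h]
    have : Commute (η ^ n) η := Commute.zpow_left (Commute.refl η) n
    rw [this.eq, mul_inv_cancel_right]
  have hr2 : ∀ n : ℤ, r ≠ J * η ^ n := by
    intro n h
    apply hη2
    rw [← hrη, h]
    have h1 : Commute (η ^ n) η := Commute.zpow_left (Commute.refl η) n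
    have h2 : Commute J η := (show Commute η J from P.ηJ).symm
    have : Commute (J * η ^ n) η := h2.mul_left h1
    rw [this.eq, mul_inv_cancel_right]
  have hr3 : ∀ n m : ℤ, r * η ^ n ≠ η ^ m := by
    intro n m h
    apply hr1 (m - n)
    rw [zpow_sub, ← h, mul_inv_cancel_right]
  have hr4 : ∀ n m : ℤ, r * η ^ n ≠ J * η ^ m := by
    intro n m h
    apply hr2 (m - n)
    rw [zpow_sub, ← mul_assoc, ← h, mul_inv_cancel_right]
  set T1 : Set Γ := Set.range (fun n : ℤ => η ^ n) with hT1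
  set T2 : Set Γ := Set.range (fun n : ℤ => r * η ^ n) with hT2
  have hrc : ∀ n : ℤ, r * η ^ n * J = J * (r * η ^ n) := by
    intro n
    rw [mul_assoc, hcomm, ← mul_assoc, hrJ, mul_assoc]
  have hF := IR_fin ψ P.toPts P.x2_in (P.inC J _ P.x2_in)
  unfold HR
  rw [wsum_axis' P.J2 P.J1 (T1 ∪ T2) ?_ ?_ hε hF (IR_J ψ P.toPts hψJ _ _) (IR_FJ ψ P hψJ)]
  · have hdisj : Disjoint T1 T2 := by
      rw [Set.disjoint_left]
      rintro _ ⟨n, rfl⟩ ⟨m, hm⟩
      exact hr3 m n hm
    rw [finsum_mem_union' hdisj (hF.subset Set.inter_subset_right)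
      (hF.subset Set.inter_subset_right), finsum_mem_range hinj, finsum_mem_range hinjr,
      IR_sumL ψ P hL hl hη hψη]
    have e : ∑ᶠ n : ℤ, IR ψ P.toPts P.x2 (ρ J P.x2) (r * η ^ n) = 1 := by
      rw [← IR_sumL ψ (movePts P hrJ) hL hl hη hψη, ← finsum_comp_equiv (Equiv.neg ℤ)]
      apply finsum_congr
      intro n
      change IR ψ P.toPts P.x2 (ρ J P.x2) (r * η ^ (-n)) = _
      rw [hrn, zpow_neg, inv_inv, IR_right ψ P hrJ hψr]
    rw [e]
    exact CharTwo.add_self_eq_zero _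
  · rintro _ (⟨n, rfl⟩ | ⟨n, rfl⟩)
    · exact hcomm n
    · exact hrc n
  · intro δ hδ
    constructor
    · rintro (⟨n, rfl⟩ | ⟨n, rfl⟩) (⟨m, hm⟩ | ⟨m, hm⟩)
      · exact hne n m hm.symm
      · exact hr4 m n hm
      · apply hr4 n m
        change η ^ m = J * (r * η ^ n) at hm
        rw [hm, key]
      · change r * η ^ m = J * (r * η ^ n) at hm
        rw [← mul_assoc, ← hrJ, mul_assoc] at hm
        exact hne n m (mul_left_cancel hm).symm
    · intro h
      obtain ⟨n, hn | hn | hn | hn⟩ := hZ δ hδ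
      · exact Or.inl ⟨n, hn.symm⟩
      · exfalso
        apply h
        left
        refine ⟨n, ?_⟩
        rw [hn, key]
      · exact Or.inr ⟨n, hn.symm⟩
      · exfalso
        apply h
        right
        refine ⟨n, ?_⟩
        rw [hn, key]

end

end SerreM
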