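import Pool.Agent.SerreM.MDefs

/-!
# MTEST: the three kinds of tests
-/

namespace SerreM

open SerreK

section
variable {Γ : Type} [Group Γ] {ρ : Γ →* (V →ₗ[ℝ] V)} {I : Type} {J : I → Γ}
variable {k : Type} [Field k] [CharP k 2] (ψ : Γ →* kˣ)

/-- intersection with the boundary of a triangle, in general position -/
theorem test_tri (F : Fam ρ J) {p q r : V} (hp : InC p) (hq : InC q) (hr : InC r)
    (h1 : ∀ a b c, Gen6 (ρ a F.x3) (ρ b F.x1) (ρ c F.x2) p q r)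
    (h2 : ∀ j a, Gen6 (ρ a F.x1) (ρ a F.x2) (ρ a (ρ (J j) F.x2)) p q r) :
    Test ψ F (fun z => z p q + z q r + z p r) (fun s t => SB ρ ψ p q r s t) where
  add z z' := by ring
  smul c z := by ring
  eqv g s t _ _ := SB_mul ψ g p q r s t
  sym s t := SB_swap ψ p q r s t
  tK a b := by
    refine foldS ψ F.proper F.x3_in (F.inC a _ F.x1_in) (F.inC b _ F.x2_in) hp hq hr ?_
    intro δ
    rw [← rho_mul ρ δ a, ← rho_mul ρ δ b]
    exact h1 _ _ _
  tJ j := foldS ψ F.proper F.x1_in F.x2_in (F.inC _ _ F.x2_in) hp hq hr (fun δ => h2 j δ)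

/-- the closed loops `(y3, g y1, h y2)` -/
theorem test_y (F : Fam ρ J) (g h : Γ) :
    Test ψ F (fun z => z F.y3 (ρ g F.y1) + z (ρ g F.y1) (ρ h F.y2) + z F.y3 (ρ h F.y2))
      (fun s t => SB ρ ψ F.y3 (ρ g F.y1) (ρ h F.y2) s t) :=
  test_tri ψ F F.y3_in (F.inC g _ F.y1_in) (F.inC h _ F.y2_in)
    (fun a b c => F.g1 a b c g h) (fun j a => F.g4 j a g h)

/-- the closed loops `(o, y1, h y2)` -/
theorem test_o (F : Fam ρ J) (i : I) (g h : Γ) :
    Test ψ F (fun z => z (F.o i) (ρ g F.y1) + z (ρ g F.y1) (ρ h F.y2) + z (F.o i) (ρ h F.y2))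
      (fun s t => SB ρ ψ (F.o i) (ρ g F.y1) (ρ h F.y2) s t) :=
  test_tri ψ F (F.o_in i) (F.inC g _ F.y1_in) (F.inC h _ F.y2_in)
    (fun a b c => F.g2 i a b c g h) (fun j a => F.g5 i j a g h)

/-- the half sum around an axis -/
theorem test_axis (F : Fam ρ J) {i : I} {η : Γ} (hη : η * J i = J i * η) {ε : Γ → k}
    (hε : ∀ δ, ε δ + ε (J i * δ) = 1) (hψJ : ψ (J i) = 1) (hψη : ψ η = 1) :
    Test ψ F (fun z => z F.y1 F.y2 + z F.y1 (ρ η F.y2))
      (fun s t => HR ψ (F.pts hη).toPts ε s t) where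
  add z z' := by ring
  smul c z := by ring
  eqv g s t hs ht := HR_mul ψ (F.pts hη).toPts hε hψJ g hs ht
  sym s t := HR_swap ψ (F.pts hη).toPts ε s t
  tK a b := (good_K ψ (F.pts hη) hε hψJ hψη a b).half
  tJ j := (good_tri ψ (F.pts hη) hε hψJ hψη F.x1_in F.x2_in (F.inC (J j) _ F.x2_in)
    (fun δ e d => F.g4 j δ e d) (fun δ e d => F.g5 i j δ e d) (fun δ d => F.g6 i j δ d)).half

end

end SerreM
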