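import Pool.Agent.SerreM.MSPAN
import Pool.Agent.SerreM.MTEST
import Pool.Agent.SerreM.MCROSS
import Pool.Agent.SerreM.MEVAL
import Pool.Agent.SerreM.MGENPOS

/-!
# AXISM: the dichotomy for several axes
-/

namespace SerreM

open SerreK

/-- `J` is a half turn whose centraliser contains the translation `η` along its axis. -/
def Axis {Γ : Type} [Group Γ] (ρ : Γ →* (V →ₗ[ℝ] V)) (J η : Γ) : Prop :=
  η * J = J * η ∧ ∃ (L : V ≃ₗ[ℝ] V) (l : ℝ), Diag ρ J L ∧ 1 < l ∧
    ∀ v, L (ρ η v) 0 = l * L v 0 ∧ L (ρ η v) 1 = l⁻¹ * L v 1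

theorem Diag.ne_one {Γ : Type} [Group Γ] {ρ : Γ →* (V →ₗ[ℝ] V)} {J : Γ} {L : V ≃ₗ[ℝ] V}
    (h : Diag ρ J L) : J ≠ 1 := by
  intro h1
  have h2 := congrFun (h.diag (L.symm ![0, 0, 1, 0])) 2
  rw [h1, SerreK.rho_one, L.apply_symm_apply] at h2
  simp only [Matrix.cons_val] at h2
  norm_num at h2

/-- splitting a sum over a disjoint union -/
theorem sum_union {ι T : Type} [Fintype ι] {k M : Type} [Field k] [AddCommMonoid M] (c : ι → k)
    (a : T →₀ k) (h : ι ⊕ T → k → M) (h0 : ∀ i, h i 0 = 0)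
    (hadd : ∀ i x y, h i (x + y) = h i x + h i y) :
    ((Finsupp.mapDomain Sum.inl (Finsupp.equivFunOnFinite.symm c) +
      Finsupp.mapDomain Sum.inr a : ι ⊕ T →₀ k).sum h) =
      (∑ i, h (Sum.inl i) (c i)) + a.sum fun t x => h (Sum.inr t) x := by
  rw [Finsupp.sum_add_index' h0 hadd, Finsupp.sum_mapDomain_index h0 hadd,
    Finsupp.sum_mapDomain_index h0 hadd, Finsupp.sum_fintype _ _ (fun i => h0 _)]
  rfl

/-- **The dichotomy for several axes.** -/
theorem axisM {Γ : Type} [Group Γ] [Countable Γ] (ρ : Γ →* (V →ₗ[ℝ] V))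
    (hC : ∀ g v, InC v → InC (ρ g v))
    (hP : ∀ a b c p q : V, InC a → InC b → InC c → InC p → InC q →
      {g | Hit (ρ g a) (ρ g b) (ρ g c) p q}.Finite)
    {k : Type} [Field k] [CharP k 2] (ψ : Γ →* kˣ)
    {ι : Type} [Finite ι] (J η : ι → Γ) (hJ2 : ∀ i, J i * J i = 1) (hA : ∀ i, Axis ρ (J i) (η i))
    (hψJ : ∀ i, ψ (J i) = 1) (hψη : ∀ i, ψ (η i) = 1)
    (hJJ : ∀ i j, i ≠ j → ∀ g, g * J i * g⁻¹ ≠ J j)
    (Tor : Set Γ) (hT2 : ∀ g ∈ Tor, g * g = 1) (hTL : ∀ g ∈ Tor, ∃ L, Diag ρ g L)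
    (hψT : ∀ g ∈ Tor, ψ g = 1) (hTJ : ∀ i, ∀ g, g * J i * g⁻¹ ∉ Tor)
    (c : ι → k) :
    (∃ b : Γ → k, (∀ g h, b (g * h) = b g + ((ψ g)⁻¹ : kˣ) * b h) ∧ (∀ g ∈ Tor, b g = 0) ∧
      ∑ᶠ i, c i * b (J i) ≠ 0) ∨
    (∃ b : Γ → k, (∀ g h, b (g * h) = b g + (ψ g : k) * b h) ∧ (∀ g ∈ Tor, b g = 0) ∧
      (∀ i, b (J i) = 0) ∧ (∀ i, Type1 (J i) (η i) → b (η i) = c i) ∧
      ∀ i r, ψ r = 1 → Type2 (J i) (η i) r → b (η i) = 0) := by
  classical
  have : Fintype ι := Fintype.ofFinite ι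
  set A : Set (Γ →₀ k) := Set.range (fun x : Γ × Γ => relz ψ x.1 x.2) with hAdef
  set B : Set (Γ →₀ k) := Set.range (fun t : Tor =>
    (Finsupp.single t.1 1 - Finsupp.single 1 1 : Γ →₀ k)) with hBdef
  by_cases hm : (∑ i, c i • (Finsupp.single (J i) 1 - Finsupp.single 1 1 : Γ →₀ k)) ∈
      Submodule.span k (A ∪ B)
  · -- case B
    right
    rw [Submodule.span_union, Submodule.mem_sup] at hm
    obtain ⟨u, hu, v, hv, huv⟩ := hm
    rw [hBdef, Finsupp.mem_span_range_iff_exists_finsupp] at hv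
    obtain ⟨a, ha⟩ := hv
    let JF : ι ⊕ Tor → Γ := Sum.elim J Subtype.val
    have hL : ∀ i : ι ⊕ Tor, ∃ L, Diag ρ (JF i) L := by
      rintro (i | t)
      · obtain ⟨_, L, l, h, _⟩ := hA i
        exact ⟨L, h⟩
      · exact hTL t.1 t.2
    choose L hL using hL
    obtain ⟨o, x1, x2, x3, y1, y2, y3, ⟨o_in, x1_in, x2_in, x3_in, y1_in, y2_in, y3_in⟩, Jo, g1,
      g2, g3, g4, g5, g6⟩ := genposM ρ hC JF L hL
    have hJF2 : ∀ i, JF i * JF i = 1 := by
      rintro (i | t)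
      · exact hJ2 i
      · exact hT2 t.1 t.2
    have hψF : ∀ i, ψ (JF i) = 1 := by
      rintro (i | t)
      · exact hψJ i
      · exact hψT t.1 t.2
    let F : Fam ρ JF :=
      { o := o, x1 := x1, x2 := x2, x3 := x3, y1 := y1, y2 := y2, y3 := y3, o_in := o_in,
        x1_in := x1_in, x2_in := x2_in, x3_in := x3_in, y1_in := y1_in, y2_in := y2_in,
        y3_in := y3_in, Jo := Jo, J2 := hJF2, J1 := fun i => (hL i).ne_one, inC := hC,
        proper := hP, g1 := g1, g2 := g2, g3 := g3, g4 := g4, g5 := g5, g6 := g6 }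
    have h2 : (2 : k) = 0 := CharTwo.two_eq_zero
    obtain ⟨z, hz, hz'⟩ := closed_test ψ F
      (Finsupp.mapDomain Sum.inl (Finsupp.equivFunOnFinite.symm c) + Finsupp.mapDomain Sum.inr a)
      (by
        rw [sum_union c a (fun i a => a • (Finsupp.single (JF i) 1 - Finsupp.single 1 1 : Γ →₀ k))
          (fun i => zero_smul _ _) (fun i x y => add_smul _ _ _)]
        have e1 : (a.sum fun t x => x • (Finsupp.single (JF (Sum.inr t)) 1 -
            Finsupp.single 1 1 : Γ →₀ k)) = v := ha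
        have e2 : (∑ i, c i • (Finsupp.single (JF (Sum.inl i)) 1 -
            Finsupp.single 1 1 : Γ →₀ k)) = u + v := huv.symm
        rw [e1, e2, add_assoc]
        have e3 : v + v = 0 := by
          ext x
          rw [Finsupp.add_apply, Finsupp.zero_apply]
          exact CharTwo.add_self_eq_zero _
        rw [e3, add_zero]
        exact hu)
    have hval : ∀ ℓ f, Test ψ F ℓ f → ℓ z = (∑ i, c i * f x2 (ρ (J i) x2)) +
        a.sum fun t x => x * f x2 (ρ t.1 x2) := by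
      intro ℓ f T
      rw [hz' ℓ f T, sum_union c a (fun i a => a * f F.x2 (ρ (JF i) F.x2))
        (fun i => zero_mul _) (fun i x y => add_mul _ _ _)]
      rfl
    have hSB : ∀ {p q r : V}, InC p → InC q → InC r → ∀ i, SB ρ ψ p q r x2 (ρ (JF i) x2) = 0 :=
      fun hp hq hr i => SB_J ψ hP (hJF2 i) (hL i).ne_one (hψF i) hp hq hr x2_in (hC _ _ x2_in)
    have hsum0 : ∀ f : V → V → k, (∀ i, f x2 (ρ (JF i) x2) = 0) →
        (∑ i, c i * f x2 (ρ (J i) x2)) + (a.sum fun t x => x * f x2 (ρ t.1 x2)) = 0 := by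
      intro f hf
      have e1 : ∀ i, f x2 (ρ (J i) x2) = 0 := fun i => hf (Sum.inl i)
      have e2 : ∀ t : Tor, f x2 (ρ t.1 x2) = 0 := fun t => hf (Sum.inr t)
      simp only [e1, e2, mul_zero, Finset.sum_const_zero, Finsupp.sum, add_zero]
    have htri : ∀ g h, z y3 (ρ g y1) + z (ρ g y1) (ρ h y2) + z y3 (ρ h y2) = 0 := by
      intro g h
      have h1 := hval _ _ (test_y ψ F g h)
      rw [hsum0 _ (hSB y3_in (hC g _ y1_in) (hC h _ y2_in))] at h1
      exact h1
    have htro : ∀ i h, z (o i) y1 + z y1 (ρ h y2) + z (o i) (ρ h y2) = 0 := by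
      intro i h
      have h1 := hval _ _ (test_o ψ F i 1 h)
      rw [hsum0 _ (hSB (o_in i) (hC 1 _ y1_in) (hC h _ y2_in))] at h1
      simp only [rho_one] at h1
      exact h1
    have htor : ∀ i, z y1 (ρ (JF i) y2) - z y1 y2 = 0 := by
      intro i
      have t1 := htro i (JF i)
      have t2 := htro i 1
      rw [rho_one] at t2
      have q1 := hz (JF i) (o i) y2 (o_in i) y2_in
      rw [Jo i, hψF i, Units.val_one, one_mul] at q1
      linear_combination t1 - t2 - q1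
    refine ⟨fun g => z y1 (ρ g y2) - z y1 y2, ?_, ?_, ?_, ?_, ?_⟩
    · intro g h
      have t1 := htri 1 (g * h)
      have t2 := htri g (g * h)
      have t3 := htri g g
      have t4 := htri 1 g
      have q1 := hz g y1 (ρ h y2) y1_in (hC h _ y2_in)
      have q2 := hz g y1 y2 y1_in y2_in
      rw [← rho_mul ρ g h] at q1
      simp only [rho_one] at t1 t4
      change z y1 (ρ (g * h) y2) - z y1 y2 = (z y1 (ρ g y2) - z y1 y2) +
        (ψ g : k) * (z y1 (ρ h y2) - z y1 y2)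
      linear_combination t1 + t2 + t3 + t4 - q1 - q2 -
        (z y3 y1 + z y3 (ρ (g * h) y2) + z y3 (ρ g y1) + z y3 (ρ g y2) +
          z y1 (ρ g y2) + (ψ g : k) * z y1 (ρ h y2)) * h2
    · intro g hg
      exact htor (Sum.inr ⟨g, hg⟩)
    · intro i
      exact htor (Sum.inl i)
    · intro i hZ
      obtain ⟨hηJ, L', l, hL', hl, hη⟩ := hA i
      obtain ⟨ε, hε, -⟩ := exists_weight2 (k := k) (hJ2 i) hL'.ne_one (mul_one (1 : Γ))
        (fun δ h => hL'.ne_one (right_eq_mul.mp (by rw [mul_one] at h; exact h)))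
      have hη' : η i * JF (Sum.inl i) = JF (Sum.inl i) * η i := hηJ
      have h1 := hval _ _ (test_axis ψ F hη' hε (hψJ i) (hψη i))
      have h3 : HR ψ (F.pts hη').toPts ε x2 (ρ (J i) x2) = 1 :=
        HR_eval1 ψ (F.pts hη') hL' hl hη hZ (hψJ i) (hψη i) hε
      have h4 : ∀ j, j ≠ i → HR ψ (F.pts hη').toPts ε x2 (ρ (J j) x2) = 0 := by
        intro j hj
        refine HR_cross ψ (F.pts hη').toPts hε (hψJ i) (hJ2 j) (hL (Sum.inl j)).ne_one ?_
          (hψJ j) x2_in
        intro δ h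
        apply hJJ i j (Ne.symm hj) δ⁻¹
        rw [inv_inv, mul_assoc]
        change δ⁻¹ * (JF (Sum.inl i) * δ) = J j
        rw [← h, inv_mul_cancel_left]
      have h5 : ∀ t : Tor, HR ψ (F.pts hη').toPts ε x2 (ρ t.1 x2) = 0 := by
        intro t
        refine HR_cross ψ (F.pts hη').toPts hε (hψJ i) (hT2 t.1 t.2) (hL (Sum.inr t)).ne_one ?_
          (hψT t.1 t.2) x2_in
        intro δ h
        apply hTJ i δ⁻¹
        rw [inv_inv, mul_assoc]
        change δ⁻¹ * (JF (Sum.inl i) * δ) ∈ Tor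
        rw [← h, inv_mul_cancel_left]
        exact t.2
      rw [Finset.sum_eq_single i (fun j _ hj => by rw [h4 j hj, mul_zero])
        (fun h => absurd (Finset.mem_univ i) h), h3, mul_one] at h1
      simp only [h5, mul_zero, Finsupp.sum, Finset.sum_const_zero, add_zero] at h1
      change z y1 y2 + z y1 (ρ (η i) y2) = c i at h1
      change z y1 (ρ (η i) y2) - z y1 y2 = c i
      linear_combination h1 - z y1 y2 * h2
    · intro i r hψr hZ
      obtain ⟨hηJ, L', l, hL', hl, hη⟩ := hA i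
      obtain ⟨ε, hε, -⟩ := exists_weight2 (k := k) (hJ2 i) hL'.ne_one (mul_one (1 : Γ))
        (fun δ h => hL'.ne_one (right_eq_mul.mp (by rw [mul_one] at h; exact h)))
      have hη' : η i * JF (Sum.inl i) = JF (Sum.inl i) * η i := hηJ
      have h1 := hval _ _ (test_axis ψ F hη' hε (hψJ i) (hψη i))
      have h3 : HR ψ (F.pts hη').toPts ε x2 (ρ (J i) x2) = 0 :=
        HR_eval2 ψ (F.pts hη') hL' hl hη hZ (hψJ i) (hψη i) hψr hε
      have h4 : ∀ j, HR ψ (F.pts hη').toPts ε x2 (ρ (J j) x2) = 0 := by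
        intro j
        by_cases hj : j = i
        · rw [hj]; exact h3
        · refine HR_cross ψ (F.pts hη').toPts hε (hψJ i) (hJ2 j) (hL (Sum.inl j)).ne_one ?_
            (hψJ j) x2_in
          intro δ h
          apply hJJ i j (Ne.symm hj) δ⁻¹
          rw [inv_inv, mul_assoc]
          change δ⁻¹ * (JF (Sum.inl i) * δ) = J j
          rw [← h, inv_mul_cancel_left]
      have h5 : ∀ t : Tor, HR ψ (F.pts hη').toPts ε x2 (ρ t.1 x2) = 0 := by
        intro t
        refine HR_cross ψ (F.pts hη').toPts hε (hψJ i) (hT2 t.1 t.2) (hL (Sum.inr t)).ne_one ?_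
          (hψT t.1 t.2) x2_in
        intro δ h
        apply hTJ i δ⁻¹
        rw [inv_inv, mul_assoc]
        change δ⁻¹ * (JF (Sum.inl i) * δ) ∈ Tor
        rw [← h, inv_mul_cancel_left]
        exact t.2
      simp only [h4, h5, mul_zero, Finsupp.sum, Finset.sum_const_zero, add_zero] at h1
      change z y1 y2 + z y1 (ρ (η i) y2) = 0 at h1
      change z y1 (ρ (η i) y2) - z y1 y2 = 0
      linear_combination h1 - z y1 y2 * h2
  · -- case A
    left
    obtain ⟨φ, hφ1, hφ2⟩ := Submodule.exists_le_ker_of_notMem hm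
    refine ⟨fun g => φ (Finsupp.single g 1) - φ (Finsupp.single 1 1), ?_, ?_, ?_⟩
    · intro g h
      have h1 : φ (relz ψ g h) = 0 := hφ2 (Submodule.subset_span (Or.inl ⟨(g, h), rfl⟩))
      unfold relz at h1
      simp only [map_sub, map_smul, smul_eq_mul] at h1
      linear_combination h1
    · intro g hg
      have h1 : φ (Finsupp.single g 1 - Finsupp.single 1 1) = 0 :=
        hφ2 (Submodule.subset_span (Or.inr ⟨⟨g, hg⟩, rfl⟩))
      rw [map_sub] at h1
      exact h1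
    · intro h
      apply hφ1
      rw [finsum_eq_sum_of_fintype] at h
      rw [map_sum]
      rw [← h]
      refine Finset.sum_congr rfl fun i _ => ?_
      rw [map_smul, map_sub, smul_eq_mul]

end SerreM
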