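import Pool.Agent.SerreK.AXIS4

/-!
# Several axes: definitions

A group `Γ` acts properly on the cone of positive definite hermitian forms. We consider a family of
half turns `J i` (involutions of `Γ` which become `diag (1, 1, -1, -1)` after a linear change of
coordinates preserving the cone), together with base points in general position.
-/

namespace SerreM

open SerreK

/-- `L` preserves the cone and turns `ρ J` into `diag (1, 1, -1, -1)`. -/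
structure Diag {Γ : Type} [Group Γ] (ρ : Γ →* (V →ₗ[ℝ] V)) (J : Γ) (L : V ≃ₗ[ℝ] V) : Prop where
  cone : ∀ v, InC (L v) ↔ InC v
  diag : ∀ v, L (ρ J v) = ![L v 0, L v 1, -(L v 2), -(L v 3)]

/-- base points in general position for a family of half turns -/
structure Fam {Γ : Type} [Group Γ] (ρ : Γ →* (V →ₗ[ℝ] V)) {I : Type} (J : I → Γ) where
  o : I → V
  x1 : V
  x2 : V
  x3 : V
  y1 : V
  y2 : V
  y3 : V
  o_in : ∀ i, InC (o i)
  x1_in : InC x1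
  x2_in : InC x2
  x3_in : InC x3
  y1_in : InC y1
  y2_in : InC y2
  y3_in : InC y3
  Jo : ∀ i, ρ (J i) (o i) = o i
  J2 : ∀ i, J i * J i = 1
  J1 : ∀ i, J i ≠ 1
  inC : ∀ g v, InC v → InC (ρ g v)
  proper : Proper ρ
  g1 : ∀ a b c d e, Gen6 (ρ a x3) (ρ b x1) (ρ c x2) y3 (ρ d y1) (ρ e y2)
  g2 : ∀ i a b c d e, Gen6 (ρ a x3) (ρ b x1) (ρ c x2) (o i) (ρ d y1) (ρ e y2)
  g3 : ∀ i a b c d, Gen6 (ρ a x3) (ρ b x1) (ρ c x2) (ρ d (o i)) y2 (ρ (J i) y2)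
  g4 : ∀ j a d e, Gen6 (ρ a x1) (ρ a x2) (ρ a (ρ (J j) x2)) y3 (ρ d y1) (ρ e y2)
  g5 : ∀ i j a d e, Gen6 (ρ a x1) (ρ a x2) (ρ a (ρ (J j) x2)) (o i) (ρ d y1) (ρ e y2)
  g6 : ∀ i j a d, Gen6 (ρ a x1) (ρ a x2) (ρ a (ρ (J j) x2)) (ρ d (o i)) y2 (ρ (J i) y2)

section
variable {Γ : Type} [Group Γ] {ρ : Γ →* (V →ₗ[ℝ] V)} {I : Type} {J : I → Γ}

/-- the base points of one member of the family -/
def Fam.pts (F : Fam ρ J) {i : I} {η : Γ} (hη : η * J i = J i * η) : Pts' ρ (J i) η where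
  o := F.o i
  y1 := F.y1
  y2 := F.y2
  o_in := F.o_in i
  y1_in := F.y1_in
  y2_in := F.y2_in
  Jo := F.Jo i
  J2 := F.J2 i
  J1 := F.J1 i
  ηJ := hη
  inC := F.inC
  proper := F.proper
  x1 := F.x1
  x2 := F.x2
  x3 := F.x3
  y3 := F.y3
  x1_in := F.x1_in
  x2_in := F.x2_in
  x3_in := F.x3_in
  y3_in := F.y3_in
  g1 := F.g1
  g2 := F.g2 i
  g3 := F.g3 i
  g4 := F.g4 i
  g5 := F.g5 i i
  g6 := F.g6 i i

variable {k : Type} [Field k] (ψ : Γ →* kˣ)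

/-- A test: an additive functional `ℓ` on functions of segments (intersection with the
Poincaré dual class of a loop) and the function `f` measuring the contribution of the boundary
segments. -/
structure Test (F : Fam ρ J) (ℓ : (V → V → k) → k) (f : V → V → k) : Prop where
  add : ∀ z z', ℓ (fun p q => z p q + z' p q) = ℓ z + ℓ z'
  smul : ∀ (c : k) z, ℓ (fun p q => c * z p q) = c * ℓ z
  eqv : ∀ g p q, InC p → InC q → f (ρ g p) (ρ g q) = ((ψ g)⁻¹ : kˣ) * f p q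
  sym : ∀ p q, f q p = f p q
  tK : ∀ a b, ℓ (fun p q => SA ρ ψ F.x3 (ρ a F.x1) (ρ b F.x2) p q) =
    f F.x3 (ρ a F.x1) + f (ρ a F.x1) (ρ b F.x2) + f F.x3 (ρ b F.x2)
  tJ : ∀ j, ℓ (fun p q => SA ρ ψ F.x1 F.x2 (ρ (J j) F.x2) p q) =
    f F.x1 F.x2 + f F.x2 (ρ (J j) F.x2) + f F.x1 (ρ (J j) F.x2)

end

/-- the centraliser of `J` is generated by `J, η` -/
def Type1 {Γ : Type} [Group Γ] (J η : Γ) : Prop :=
  ∀ g, g * J = J * g → ∃ n : ℤ, g = η ^ n ∨ g = J * η ^ n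

/-- the centraliser of `J` is generated by `J, η, r` with `r η r⁻¹ = η⁻¹` -/
def Type2 {Γ : Type} [Group Γ] (J η r : Γ) : Prop :=
  r * J = J * r ∧ r * η * r⁻¹ = η⁻¹ ∧ ∀ g, g * J = J * g →
    ∃ n : ℤ, g = η ^ n ∨ g = J * η ^ n ∨ g = r * η ^ n ∨ g = J * (r * η ^ n)

end SerreM
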