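import Pool.Agent.SerreM.MDefs

/-!
# MSPAN: chains with given boundary
-/

namespace SerreM

open SerreK

section
variable {Γ : Type} [Group Γ] {ρ : Γ →* (V →ₗ[ℝ] V)} {I : Type} {J : I → Γ}
variable {k : Type} [Field k] [CharP k 2] (ψ : Γ →* kˣ)

theorem span_test (F : Fam ρ J) (m : Γ →₀ k)
    (hm : m ∈ Submodule.span k (Set.range (fun x : Γ × Γ => relz ψ x.1 x.2))) :
    ∃ z : V → V → k, (∀ g p q, InC p → InC q → z (ρ g p) (ρ g q) = (ψ g : k) * z p q) ∧
      ∀ ℓ f, Test ψ F ℓ f → ℓ z = Finsupp.linearCombination k (fun A => f F.x1 (ρ A F.x2)) m := by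
  induction hm using Submodule.span_induction with
  | mem x hx =>
    obtain ⟨⟨g, h⟩, rfl⟩ := hx
    refine ⟨fun p q => (SA ρ ψ F.x3 (ρ 1 F.x1) (ρ (g * h) F.x2) p q +
      SA ρ ψ F.x3 (ρ g F.x1) (ρ (g * h) F.x2) p q) +
      (SA ρ ψ F.x3 (ρ g F.x1) (ρ g F.x2) p q + SA ρ ψ F.x3 (ρ 1 F.x1) (ρ g F.x2) p q), ?_, ?_⟩
    · intro a p q _ _
      simp only [SA_mul]
      ring
    · intro ℓ f T
      rw [T.add (fun p q => SA ρ ψ F.x3 (ρ 1 F.x1) (ρ (g * h) F.x2) p q +
          SA ρ ψ F.x3 (ρ g F.x1) (ρ (g * h) F.x2) p q)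
        (fun p q => SA ρ ψ F.x3 (ρ g F.x1) (ρ g F.x2) p q +
          SA ρ ψ F.x3 (ρ 1 F.x1) (ρ g F.x2) p q),
        T.add (fun p q => SA ρ ψ F.x3 (ρ 1 F.x1) (ρ (g * h) F.x2) p q)
          (fun p q => SA ρ ψ F.x3 (ρ g F.x1) (ρ (g * h) F.x2) p q),
        T.add (fun p q => SA ρ ψ F.x3 (ρ g F.x1) (ρ g F.x2) p q)
          (fun p q => SA ρ ψ F.x3 (ρ 1 F.x1) (ρ g F.x2) p q), T.tK, T.tK, T.tK, T.tK]
      unfold relz
      simp only [map_sub, map_smul, Finsupp.linearCombination_single, one_smul, smul_eq_mul]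
      have e1 := T.eqv g F.x1 (ρ h F.x2) F.x1_in (F.inC h _ F.x2_in)
      have e2 := T.eqv g F.x1 F.x2 F.x1_in F.x2_in
      rw [← rho_mul ρ g h] at e1
      simp only [rho_one]
      have h2 : (2 : k) = 0 := CharTwo.two_eq_zero
      linear_combination e1 + e2 + (f F.x3 F.x1 + f F.x3 (ρ g F.x1) +
        f F.x3 (ρ (g * h) F.x2) + f F.x3 (ρ g F.x2) + f F.x1 (ρ g F.x2) +
        (((ψ g)⁻¹ : kˣ) : k) * f F.x1 (ρ h F.x2)) * h2
  | zero =>
    refine ⟨fun _ _ => 0, fun _ _ _ _ _ => by rw [mul_zero], ?_⟩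
    intro ℓ f T
    have h := T.smul 0 (fun _ _ => 0)
    simp only [mul_zero, zero_mul] at h
    rw [h, map_zero]
  | add x y _ _ hx hy =>
    obtain ⟨z, hz, hz'⟩ := hx
    obtain ⟨w, hw, hw'⟩ := hy
    refine ⟨fun p q => z p q + w p q, ?_, ?_⟩
    · intro g p q hp hq
      beta_reduce
      rw [hz g p q hp hq, hw g p q hp hq]
      ring
    · intro ℓ f T
      rw [T.add, hz' ℓ f T, hw' ℓ f T, map_add]
  | smul c x _ hx =>
    obtain ⟨z, hz, hz'⟩ := hx
    refine ⟨fun p q => c * z p q, ?_, ?_⟩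
    · intro g p q hp hq
      beta_reduce
      rw [hz g p q hp hq]
      ring
    · intro ℓ f T
      rw [T.smul, hz' ℓ f T, map_smul, smul_eq_mul]

/-- the closed chain attached to a relation between the half turns -/
theorem closed_test (F : Fam ρ J) (c : I →₀ k)
    (hm : (c.sum fun i a => a • (Finsupp.single (J i) 1 - Finsupp.single 1 1 : Γ →₀ k)) ∈
      Submodule.span k (Set.range (fun x : Γ × Γ => relz ψ x.1 x.2))) :
    ∃ z : V → V → k, (∀ g p q, InC p → InC q → z (ρ g p) (ρ g q) = (ψ g : k) * z p q) ∧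
      ∀ ℓ f, Test ψ F ℓ f → ℓ z = c.sum fun i a => a * f F.x2 (ρ (J i) F.x2) := by
  obtain ⟨z, hz, hz'⟩ := span_test ψ F _ hm
  have key : ∀ d : I →₀ k, ∃ w : V → V → k,
      (∀ g p q, InC p → InC q → w (ρ g p) (ρ g q) = (ψ g : k) * w p q) ∧
      ∀ ℓ f, Test ψ F ℓ f → ℓ w = d.sum fun i a =>
        a * (f F.x1 F.x2 + f F.x2 (ρ (J i) F.x2) + f F.x1 (ρ (J i) F.x2)) := by
    intro d
    induction d using Finsupp.induction_linear with
    | zero =>
      refine ⟨fun _ _ => 0, fun _ _ _ _ _ => by rw [mul_zero], ?_⟩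
      intro ℓ f T
      have h := T.smul 0 (fun _ _ => 0)
      simp only [mul_zero, zero_mul] at h
      rw [h, Finsupp.sum_zero_index]
    | add d e hd he =>
      obtain ⟨w, hw, hw'⟩ := hd
      obtain ⟨v, hv, hv'⟩ := he
      refine ⟨fun p q => w p q + v p q, ?_, ?_⟩
      · intro g p q hp hq
        beta_reduce
        rw [hw g p q hp hq, hv g p q hp hq]
        ring
      · intro ℓ f T
        rw [T.add, hw' ℓ f T, hv' ℓ f T, Finsupp.sum_add_index' (fun _ => zero_mul _)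
          (fun _ _ _ => add_mul _ _ _)]
    | single i a =>
      refine ⟨fun p q => a * SA ρ ψ F.x1 F.x2 (ρ (J i) F.x2) p q, ?_, ?_⟩
      · intro g p q _ _
        beta_reduce
        rw [SA_mul]
        ring
      · intro ℓ f T
        rw [T.smul a (fun p q => SA ρ ψ F.x1 F.x2 (ρ (J i) F.x2) p q), T.tJ,
          Finsupp.sum_single_index (zero_mul _)]
  obtain ⟨w, hw, hw'⟩ := key c
  refine ⟨fun p q => z p q + w p q, ?_, ?_⟩
  · intro g p q hp hq
    beta_reduce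
    rw [hz g p q hp hq, hw g p q hp hq]
    ring
  · intro ℓ f T
    rw [T.add, hz' ℓ f T, hw' ℓ f T, Finsupp.sum, Finsupp.sum, Finsupp.sum, map_sum,
      ← Finset.sum_add_distrib]
    refine Finset.sum_congr rfl fun i _ => ?_
    simp only [map_sub, map_smul, Finsupp.linearCombination_single, smul_eq_mul,
      rho_one, one_mul]
    have h2 : (2 : k) = 0 := CharTwo.two_eq_zero
    linear_combination (c i * f F.x1 (ρ (J i) F.x2)) * h2

end

end SerreM
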